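import Mathlib
import Pool.Graph.R_seed8.Y327.Root
import Pool.Graph.R_seed8.TH314.CSD.Scales

/-! # No drift inside a set of matrices with product bounded below -/

open Filter Topology Matrix

namespace Pool.Agent.H202.Twins

open H715R2 Y327

variable {d : ℕ}

/-- an integer point with prescribed signs of two forms -/
lemma exists_sign_vec {h : Matrix (Fin d) (Fin d) ℝ} (hdet : h.det ≠ 0) {i j : Fin d}
    (hij : i ≠ j) {σ : ℝ} (hσ : σ * σ = 1) :
    ∃ m : Fin d → ℤ, 0 < (h *ᵥ iR m) i ∧ σ * (h *ᵥ iR m) j < 0 := by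
  classical
  have hc : ∀ k : Fin d, Continuous (fun x : Fin d → ℝ => (h *ᵥ x) k) := by
    intro k
    unfold mulVec dotProduct
    fun_prop
  set U : Set (Fin d → ℝ) := {x | 0 < (h *ᵥ x) i ∧ σ * (h *ᵥ x) j < 0} with hU
  have hUo : IsOpen U :=
    (isOpen_lt continuous_const (hc i)).inter
      (isOpen_lt (continuous_const.mul (hc j)) continuous_const)
  set v : Fin d → ℝ := fun l => if l = i then 1 else if l = j then -σ else 0 with hv
  have hx : (h⁻¹ *ᵥ v) ∈ U := by
    have h1 : h *ᵥ (h⁻¹ *ᵥ v) = v := by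
      rw [mulVec_mulVec, mul_nonsing_inv _ (isUnit_iff_ne_zero.2 hdet), one_mulVec]
    rw [hU, Set.mem_ofPred_eq, h1]
    simp only [hv, if_true, if_neg hij.symm]
    refine ⟨one_pos, ?_⟩
    rw [mul_neg, hσ]
    norm_num
  obtain ⟨m, k, hk, hmk⟩ := exists_int_point U hUo _ hx
  have hk0 : (0 : ℝ) < k := by exact_mod_cast hk
  have h2 : (fun l => (m l : ℝ) / k) = ((k : ℝ)⁻¹) • iR m := by
    funext l
    simp only [Pi.smul_apply, smul_eq_mul]
    rw [div_eq_inv_mul]
    rfl
  rw [h2, hU, Set.mem_ofPred_eq, mulVec_smul] at hmk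
  simp only [Pi.smul_apply, smul_eq_mul] at hmk
  refine ⟨m, ?_, ?_⟩
  · exact (pos_iff_pos_of_mul_pos hmk.1).1 (inv_pos.2 hk0)
  · have h3 := hmk.2
    have h4 : (k : ℝ)⁻¹ * (σ * (h *ᵥ iR m) j) < 0 := by linarith [h3, mul_left_comm σ (k : ℝ)⁻¹ ((h *ᵥ iR m) j)]
    by_contra hcon
    exact absurd h4 (not_lt.2 (mul_nonneg (inv_nonneg.2 hk0.le) (not_lt.1 hcon)))

/-- **No drift.** -/
theorem no_drift {ν : ℝ} (hν : 0 < ν) {M : Set (Matrix (Fin d) (Fin d) ℝ)}
    (hMdet : ∀ h ∈ M, h.det ≠ 0) (hMnu : ∀ h ∈ M, HasNu h ν) (hne : M.Nonempty)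
    {i j : Fin d} (hij : i ≠ j) {σ c C : ℝ} (hσ : σ * σ = 1) (hc : 0 < c) (hC : 0 < C)
    (hst : ∀ ε : ℝ, 0 < ε → ∃ ρ : ℝ, 0 < ρ ∧ ρ < ε ∧ ∀ h ∈ M,
      ∃ X : Matrix (Fin d) (Fin d) ℝ, (1 + X) * h ∈ M ∧ (∀ a b, |X a b| ≤ C * ρ) ∧
        (∀ b, |X j b| ≤ ε * ρ) ∧ (∀ b, b ≠ j → |X i b| ≤ ε * ρ) ∧ c * ρ ≤ σ * X i j) :
    False := by
  classical
  obtain ⟨h₀, hh₀⟩ := hne
  obtain ⟨m, hm1, hm2⟩ := exists_sign_vec (hMdet h₀ hh₀) hij hσ
  have hm0 : m ≠ 0 := by
    intro h0
    rw [h0] at hm1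
    have : iR (0 : Fin d → ℤ) = 0 := by
      funext l
      simp [iR]
    rw [this, mulVec_zero] at hm1
    exact lt_irrefl _ hm1
  have hdpos : 0 < d := i.pos
  have hd : (0 : ℝ) < d := by exact_mod_cast hdpos
  set α := (h₀ *ᵥ iR m) i with hα
  set β := -(σ * (h₀ *ᵥ iR m) j) with hβ
  have hβ0 : 0 < β := by rw [hβ]; linarith
  set A : ℝ := (∑ l, |(h₀ *ᵥ iR m) l|) + 1 with hA
  have hA1 : ∀ l, |(h₀ *ᵥ iR m) l| ≤ A := by
    intro l
    have := Finset.single_le_sum (f := fun l => |(h₀ *ᵥ iR m) l|) (fun _ _ => abs_nonneg _)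
      (Finset.mem_univ l)
    rw [hA]
    linarith
  have hA0 : 0 < A := by
    have : 0 ≤ ∑ l, |(h₀ *ᵥ iR m) l| := Finset.sum_nonneg fun _ _ => abs_nonneg _
    rw [hA]
    linarith
  set T : ℝ := 4 * α / (c * β) + 2 with hT
  have hT0 : 0 < T := by positivity
  set Y : ℝ := A * Real.exp (d * C * T) with hY
  have hY0 : 0 < Y := by positivity
  set ε : ℝ := min (min 1 (β / (2 * (d * Y * T)))) (min (c * β / (4 * (d * Y)))
    (ν / (2 * (d * C * Y * Y ^ (d - 1))))) with hε
  have hε0 : 0 < ε := by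
    rw [hε]
    refine lt_min (lt_min one_pos ?_) (lt_min ?_ ?_) <;> positivity
  have hε1 : ε ≤ 1 := (min_le_left _ _).trans (min_le_left _ _)
  have hε2 : ε * (d * Y * T) ≤ β / 2 := by
    have h1 : ε ≤ β / (2 * (d * Y * T)) := (min_le_left _ _).trans (min_le_right _ _)
    have h2 : 0 < d * Y * T := by positivity
    calc ε * (d * Y * T) ≤ β / (2 * (d * Y * T)) * (d * Y * T) :=
          mul_le_mul_of_nonneg_right h1 h2.le
      _ = β / 2 := by field_simp
  have hε3 : ε * (d * Y) ≤ c * β / 4 := by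
    have h1 : ε ≤ c * β / (4 * (d * Y)) := (min_le_right _ _).trans (min_le_left _ _)
    have h2 : 0 < d * Y := by positivity
    calc ε * (d * Y) ≤ c * β / (4 * (d * Y)) * (d * Y) :=
          mul_le_mul_of_nonneg_right h1 h2.le
      _ = c * β / 4 := by field_simp
  have hε4 : ε * (d * C * Y * Y ^ (d - 1)) ≤ ν / 2 := by
    have h1 : ε ≤ ν / (2 * (d * C * Y * Y ^ (d - 1))) :=
      (min_le_right _ _).trans (min_le_right _ _)
    have h2 : 0 < d * C * Y * Y ^ (d - 1) := by positivity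
    calc ε * (d * C * Y * Y ^ (d - 1))
        ≤ ν / (2 * (d * C * Y * Y ^ (d - 1))) * (d * C * Y * Y ^ (d - 1)) :=
          mul_le_mul_of_nonneg_right h1 h2.le
      _ = ν / 2 := by field_simp
  obtain ⟨ρ, hρ0, hρε, hstep⟩ := hst ε hε0
  have hρ1 : ρ ≤ 1 := by linarith
  choose! X hX1 hX2 hX3 hX4 hX5 using hstep
  -- the sequence
  let H : ℕ → Matrix (Fin d) (Fin d) ℝ := fun k => Nat.rec h₀ (fun _ h => (1 + X h) * h) k
  have hH0 : H 0 = h₀ := rfl
  have hHs : ∀ k, H (k + 1) = (1 + X (H k)) * H k := fun k => rfl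
  have hHM : ∀ k, H k ∈ M := by
    intro k
    induction k with
    | zero => exact hh₀
    | succ k ih => rw [hHs]; exact hX1 _ ih
  set y : ℕ → Fin d → ℝ := fun k => H k *ᵥ iR m with hy
  have hys : ∀ k l, y (k + 1) l = y k l + ∑ b, X (H k) l b * y k b := by
    intro k l
    simp only [hy]
    rw [hHs, ← mulVec_mulVec, add_mulVec, one_mulVec, Pi.add_apply]
    rfl
  have hL1 : ∀ k l, |y k l| ≤ A * (1 + d * C * ρ) ^ k := by
    intro k
    induction k with
    | zero =>
      intro l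
      rw [pow_zero, mul_one]
      exact hA1 l
    | succ k ih =>
      intro l
      rw [hys]
      have h1 : |∑ b, X (H k) l b * y k b| ≤ ∑ _b : Fin d, C * ρ * (A * (1 + d * C * ρ) ^ k) := by
        refine (Finset.abs_sum_le_sum_abs _ _).trans (Finset.sum_le_sum fun b _ => ?_)
        rw [abs_mul]
        exact mul_le_mul (hX2 _ (hHM k) l b) (ih b) (abs_nonneg _) (by positivity)
      rw [Finset.sum_const, Finset.card_univ, Fintype.card_fin, nsmul_eq_mul] at h1
      calc |y k l + ∑ b, X (H k) l b * y k b|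
          ≤ |y k l| + |∑ b, X (H k) l b * y k b| := abs_add_le _ _
        _ ≤ A * (1 + d * C * ρ) ^ k + d * (C * ρ * (A * (1 + d * C * ρ) ^ k)) :=
            add_le_add (ih l) h1
        _ = A * (1 + d * C * ρ) ^ (k + 1) := by ring
  have hL2 : ∀ k : ℕ, (k : ℝ) * ρ ≤ T → ∀ l, |y k l| ≤ Y := by
    intro k hk l
    refine (hL1 k l).trans ?_
    rw [hY]
    refine mul_le_mul_of_nonneg_left ?_ hA0.le
    have h1 : (1 + d * C * ρ) ^ k ≤ Real.exp (d * C * ρ) ^ k := by
      refine pow_le_pow_left₀ (by positivity) ?_ k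
      have := Real.add_one_le_exp (d * C * ρ)
      linarith
    refine h1.trans ?_
    rw [← Real.exp_nat_mul]
    refine Real.exp_le_exp.2 ?_
    calc (k : ℝ) * (d * C * ρ) = d * C * (k * ρ) := by ring
      _ ≤ d * C * T := mul_le_mul_of_nonneg_left hk (by positivity)
  have hsum : ∀ (k : ℕ), (k : ℝ) * ρ ≤ T → ∀ (s : Finset (Fin d)) (l : Fin d),
      (∀ b ∈ s, |X (H k) l b| ≤ ε * ρ) → |∑ b ∈ s, X (H k) l b * y k b| ≤ ε * ρ * (d * Y) := by
    intro k hk s l hs
    have h1 : |∑ b ∈ s, X (H k) l b * y k b| ≤ ∑ _b ∈ s, ε * ρ * Y := by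
      refine (Finset.abs_sum_le_sum_abs _ _).trans (Finset.sum_le_sum fun b hb => ?_)
      rw [abs_mul]
      exact mul_le_mul (hs b hb) (hL2 k hk b) (abs_nonneg _) (by positivity)
    rw [Finset.sum_const, nsmul_eq_mul] at h1
    refine h1.trans ?_
    have h2 : (s.card : ℝ) ≤ d := by
      have := Finset.card_le_univ s
      rw [Fintype.card_fin] at this
      exact_mod_cast this
    calc (s.card : ℝ) * (ε * ρ * Y) ≤ d * (ε * ρ * Y) :=
          mul_le_mul_of_nonneg_right h2 (by positivity)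
      _ = ε * ρ * (d * Y) := by ring
  have hmono : ∀ k : ℕ, ((k + 1 : ℕ) : ℝ) * ρ ≤ T → (k : ℝ) * ρ ≤ T := by
    intro k hk
    refine le_trans ?_ hk
    push_cast
    nlinarith
  have hL3 : ∀ k : ℕ, (k : ℝ) * ρ ≤ T → |y k j - y 0 j| ≤ k * (ε * ρ * (d * Y)) := by
    intro k
    induction k with
    | zero => intro _; simp
    | succ k ih =>
      intro hk
      have hk' := hmono k hk
      have h1 := ih hk'
      have h2 := hsum k hk' Finset.univ j (fun b _ => hX3 _ (hHM k) b)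
      rw [hys]
      calc |y k j + ∑ b, X (H k) j b * y k b - y 0 j|
          = |(y k j - y 0 j) + ∑ b, X (H k) j b * y k b| := by ring_nf
        _ ≤ |y k j - y 0 j| + |∑ b, X (H k) j b * y k b| := abs_add_le _ _
        _ ≤ k * (ε * ρ * (d * Y)) + ε * ρ * (d * Y) := add_le_add h1 h2
        _ = ((k + 1 : ℕ) : ℝ) * (ε * ρ * (d * Y)) := by push_cast; ring
  have hL3' : ∀ k : ℕ, (k : ℝ) * ρ ≤ T → σ * y k j ≤ -(β / 2) := by
    intro k hk
    have h1 := hL3 k hk
    have h2 : (k : ℝ) * (ε * ρ * (d * Y)) ≤ β / 2 := by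
      calc (k : ℝ) * (ε * ρ * (d * Y)) = ε * (d * Y) * (k * ρ) := by ring
        _ ≤ ε * (d * Y) * T := mul_le_mul_of_nonneg_left hk (by positivity)
        _ = ε * (d * Y * T) := by ring
        _ ≤ β / 2 := hε2
    have h3 : |σ| = 1 := by
      have : |σ| * |σ| = 1 := by rw [abs_mul_abs_self, hσ]
      nlinarith [abs_nonneg σ]
    have h4 : |σ * y k j - σ * y 0 j| ≤ β / 2 := by
      rw [← mul_sub, abs_mul, h3, one_mul]
      exact h1.trans h2
    have h5 : σ * y 0 j = -β := by rw [hβ]; simp only [hy, hH0]; ring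
    rw [h5] at h4
    have := (abs_le.1 h4).2
    linarith
  have hstepi : ∀ k : ℕ, (k : ℝ) * ρ ≤ T →
      y (k + 1) i ≤ y k i - c * ρ * (β / 4) ∧ y k i ≤ y (k + 1) i + C * ρ * (d * Y) := by
    intro k hk
    rw [hys]
    constructor
    · have h1 := hsum k hk (Finset.univ.erase j) i
        (fun b hb => hX4 _ (hHM k) b (Finset.ne_of_mem_erase hb))
      have h2 : X (H k) i j * y k j ≤ -(c * ρ * (β / 2)) := by
        have h3 := hX5 _ (hHM k)
        have h4 := hL3' k hk
        have h5 : X (H k) i j * y k j = (σ * X (H k) i j) * (σ * y k j) := by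
          calc X (H k) i j * y k j = (σ * σ) * (X (H k) i j * y k j) := by rw [hσ, one_mul]
            _ = _ := by ring
        rw [h5]
        have h6 : 0 ≤ σ * X (H k) i j := le_trans (by positivity) h3
        nlinarith [mul_nonneg (sub_nonneg.2 h3) hβ0.le, mul_nonneg h6 (sub_nonneg.2 h4)]
      rw [← Finset.add_sum_erase _ _ (Finset.mem_univ j)]
      have h7 : ε * ρ * (d * Y) ≤ c * ρ * (β / 4) := by
        calc ε * ρ * (d * Y) = ρ * (ε * (d * Y)) := by ring
          _ ≤ ρ * (c * β / 4) := mul_le_mul_of_nonneg_left hε3 hρ0.le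
          _ = c * ρ * (β / 4) := by ring
      have h8 := (abs_le.1 h1).2
      linarith
    · have h1 : |∑ b, X (H k) i b * y k b| ≤ ∑ _b : Fin d, C * ρ * Y := by
        refine (Finset.abs_sum_le_sum_abs _ _).trans (Finset.sum_le_sum fun b hb => ?_)
        rw [abs_mul]
        exact mul_le_mul (hX2 _ (hHM k) i b) (hL2 k hk b) (abs_nonneg _) (by positivity)
      rw [Finset.sum_const, Finset.card_univ, Fintype.card_fin, nsmul_eq_mul] at h1
      have h2 := (abs_le.1 h1).1
      linarith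
  have hpos : ∀ k : ℕ, (k : ℝ) * ρ ≤ T → 0 < y k i := by
    intro k
    induction k with
    | zero => intro _; exact hm1
    | succ k ih =>
      intro hk
      have hk' := hmono k hk
      have h1 := ih hk'
      by_contra hcon
      rw [not_lt] at hcon
      have h2 := (hstepi k hk').2
      have h3 : |y k i| ≤ C * ρ * (d * Y) := by
        rw [abs_of_pos h1]
        linarith
      have h4 : |FF (H k) (iR m)| ≤ C * ρ * (d * Y) * Y ^ (d - 1) := by
        rw [FF_eq, Finset.abs_prod, ← Finset.mul_prod_erase Finset.univ _ (Finset.mem_univ i)]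
        refine mul_le_mul h3 ?_ (Finset.prod_nonneg fun _ _ => abs_nonneg _) (by positivity)
        refine (Finset.prod_le_prod (g := fun _ => Y) (fun l _ => abs_nonneg _)
          (fun l _ => hL2 k hk' l)).trans (le_of_eq ?_)
        rw [Finset.prod_const, Finset.card_erase_of_mem (Finset.mem_univ i), Finset.card_univ,
          Fintype.card_fin]
      have h5 := hMnu _ (hHM k) m hm0
      have h6 : C * ρ * (d * Y) * Y ^ (d - 1) ≤ ν / 2 := by
        calc C * ρ * (d * Y) * Y ^ (d - 1) = ρ * (d * C * Y * Y ^ (d - 1)) := by ring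
          _ ≤ ε * (d * C * Y * Y ^ (d - 1)) := mul_le_mul_of_nonneg_right hρε.le (by positivity)
          _ ≤ ν / 2 := hε4
      linarith
  have hL5 : ∀ k : ℕ, (k : ℝ) * ρ ≤ T → y k i ≤ α - k * (c * ρ * (β / 4)) := by
    intro k
    induction k with
    | zero =>
      intro _
      rw [Nat.cast_zero, zero_mul, sub_zero]
      exact le_rfl
    | succ k ih =>
      intro hk
      have hk' := hmono k hk
      have h1 := ih hk'
      have h2 := (hstepi k hk').1
      push_cast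
      linarith
  set k := ⌊T / ρ⌋₊ with hk
  have hk1 : (k : ℝ) * ρ ≤ T := by
    have := Nat.floor_le (show 0 ≤ T / ρ by positivity)
    rwa [← hk, le_div_iff₀ hρ0] at this
  have hk2 : T - 1 ≤ (k : ℝ) * ρ := by
    have h1 := Nat.lt_floor_add_one (T / ρ)
    rw [← hk, div_lt_iff₀ hρ0] at h1
    linarith
  have h1 := hpos k hk1
  have h2 := hL5 k hk1
  have h3 : (T - 1) * (c * (β / 4)) ≤ k * (c * ρ * (β / 4)) := by
    calc (T - 1) * (c * (β / 4)) ≤ (k * ρ) * (c * (β / 4)) :=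
          mul_le_mul_of_nonneg_right hk2 (by positivity)
      _ = k * (c * ρ * (β / 4)) := by ring
  have h4 : (T - 1) * (c * (β / 4)) = α + c * (β / 4) := by
    rw [hT]
    have : c ≠ 0 := hc.ne'
    have : β ≠ 0 := hβ0.ne'
    field_simp
    ring
  have h5 : 0 < c * (β / 4) := by positivity
  linarith

end Pool.Agent.H202.Twins
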