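import Mathlib
import Pool.Agent.H202.Drift

/-! # Twins in a minimal set: triangular perturbations -/

open Filter Topology Matrix

namespace Pool.Agent.H202.Twins

open H715R2 Y327

variable {d : ℕ}

/-- `W` is supported on `J` -/
def Supp (J : Finset (Fin d × Fin d)) (W : Matrix (Fin d) (Fin d) ℝ) : Prop :=
  ∀ a b, (a, b) ∉ J → W a b = 0

/-- `h` has a twin `diag(s) (1 + W) h` in `M`, with `W` supported exactly on `J`, with signs `σ`
and sizes between `c r ^ level` and `C r ^ level`. -/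
def Tw (M : Set (Matrix (Fin d) (Fin d) ℝ)) (J : Finset (Fin d × Fin d))
    (σ : Fin d × Fin d → ℝ) (s : Fin d → ℝ) (w : Fin d → ℕ) (c C r : ℝ)
    (h : Matrix (Fin d) (Fin d) ℝ) : Prop :=
  ∃ W : Matrix (Fin d) (Fin d) ℝ, Supp J W ∧
    (∀ e ∈ J, c * r ^ (w e.2 - w e.1) ≤ σ e * W e.1 e.2 ∧
      σ e * W e.1 e.2 ≤ C * r ^ (w e.2 - w e.1)) ∧
    diagonal s * (1 + W) * h ∈ M

/-- conjugation by a diagonal matrix -/
lemma conj_identity {b : Fin d → ℝ} (hb : ∀ l, b l ≠ 0) (s : Fin d → ℝ)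
    (W h : Matrix (Fin d) (Fin d) ℝ) :
    diagonal b * (diagonal s * (1 + W) * (diagonal (fun l => (b l)⁻¹) * h)) =
      diagonal s * (1 + Matrix.of fun a c => b a * W a c * (b c)⁻¹) * h := by
  have h1 : diagonal b * (1 + W) * diagonal (fun l => (b l)⁻¹) =
      1 + Matrix.of fun a c => b a * W a c * (b c)⁻¹ := by
    rw [Matrix.mul_add, Matrix.add_mul, Matrix.mul_one, diagonal_mul_diagonal]
    congr 1
    · have : (fun i => b i * (b i)⁻¹) = fun _ => (1 : ℝ) := funext fun l => mul_inv_cancel₀ (hb l)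
      rw [this, diagonal_one]
    · ext a c
      rw [mul_diagonal, diagonal_mul, Matrix.of_apply]
  rw [← h1]
  have h2 : diagonal b * diagonal s = diagonal s * diagonal b := by
    rw [diagonal_mul_diagonal, diagonal_mul_diagonal]
    congr 1
    funext l
    exact mul_comm _ _
  simp only [← Matrix.mul_assoc]
  rw [h2]

/-- the one-parameter group with prescribed weights -/
lemma exists_BB (hd : 0 < d) (w : Fin d → ℕ) {r : ℝ} (hr : 0 < r) :
    ∃ b : Fin d → ℝ, BB id b ∧ ∀ a c, w a ≤ w c → b a * (b c)⁻¹ = r ^ (w c - w a) := by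
  have hd' : (0 : ℝ) < d := by exact_mod_cast hd
  set P : ℝ := ∏ l, r ^ w l with hP
  have hP0 : 0 < P := Finset.prod_pos fun l _ => pow_pos hr _
  set κ : ℝ := P ^ ((1 : ℝ) / d) with hκ
  have hκ0 : 0 < κ := Real.rpow_pos_of_pos hP0 _
  have hκd : κ ^ d = P := by
    rw [hκ, ← Real.rpow_natCast, ← Real.rpow_mul hP0.le]
    rw [one_div, inv_mul_cancel₀ hd'.ne', Real.rpow_one]
  refine ⟨fun l => κ * (r ^ w l)⁻¹, ⟨fun l => mul_pos hκ0 (inv_pos.2 (pow_pos hr _)), ?_,
    fun i j hij => by rw [show i = j from hij]⟩, ?_⟩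
  · rw [Finset.prod_mul_distrib, Finset.prod_const, Finset.card_univ, Fintype.card_fin, hκd,
      Finset.prod_inv_distrib, mul_inv_cancel₀ hP0.ne']
  · intro a c hac
    have h1 : r ^ w c = r ^ (w c - w a) * r ^ w a := by rw [← pow_add, Nat.sub_add_cancel hac]
    have h2 : r ^ w a ≠ 0 := (pow_pos hr _).ne'
    have h3 : r ^ (w c - w a) ≠ 0 := (pow_pos hr _).ne'
    simp only
    rw [h1]
    field_simp

/-- from one scale to all scales -/
lemma Tw.scale (hd : 0 < d) {M : Set (Matrix (Fin d) (Fin d) ℝ)} (hM : InvB id M)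
    {J : Finset (Fin d × Fin d)} {σ : Fin d × Fin d → ℝ} {s : Fin d → ℝ} {w : Fin d → ℕ}
    (hw : ∀ e ∈ J, w e.1 < w e.2) {c C : ℝ} (hTw : ∀ h ∈ M, Tw M J σ s w c C 1 h)
    {r : ℝ} (hr : 0 < r) : ∀ h ∈ M, Tw M J σ s w c C r h := by
  intro h hh
  obtain ⟨b, hb, hbr⟩ := exists_BB hd w hr
  obtain ⟨W, hW1, hW2, hW3⟩ := hTw _ (hM.diag hh hb.inv)
  refine ⟨Matrix.of fun a c => b a * W a c * (b c)⁻¹, ?_, ?_, ?_⟩
  · intro a e hae
    rw [Matrix.of_apply, hW1 a e hae, mul_zero, zero_mul]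
  · intro e he
    have h1 := hW2 e he
    simp only [one_pow, mul_one] at h1
    have h2 := hbr e.1 e.2 (hw e he).le
    have h3 : σ e * (Matrix.of fun a c => b a * W a c * (b c)⁻¹) e.1 e.2 =
        σ e * W e.1 e.2 * r ^ (w e.2 - w e.1) := by
      rw [Matrix.of_apply, ← h2]
      ring
    have h4 : 0 < r ^ (w e.2 - w e.1) := pow_pos hr _
    rw [h3]
    exact ⟨mul_le_mul_of_nonneg_right h1.1 h4.le, mul_le_mul_of_nonneg_right h1.2 h4.le⟩
  · rw [← conj_identity (fun l => (hb.1 l).ne')]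
    exact hM.diag hW3 hb

/-- two steps -/
lemma two_step {s : Fin d → ℝ} (hs : ∀ l, s l * s l = 1) (W W' h : Matrix (Fin d) (Fin d) ℝ) :
    diagonal s * (1 + W') * (diagonal s * (1 + W) * h) =
      (1 + (W + diagonal s * W' * diagonal s + diagonal s * W' * diagonal s * W)) * h := by
  have h1 : diagonal s * diagonal s = 1 := by
    rw [diagonal_mul_diagonal]
    have : (fun i => s i * s i) = fun _ => (1 : ℝ) := funext hs
    rw [this, diagonal_one]
  have h2 : diagonal s * (1 + W') * diagonal s = 1 + diagonal s * W' * diagonal s := by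
    rw [Matrix.mul_add, Matrix.add_mul, Matrix.mul_one, h1]
  calc diagonal s * (1 + W') * (diagonal s * (1 + W) * h)
      = (diagonal s * (1 + W') * diagonal s) * (1 + W) * h := by
        simp only [Matrix.mul_assoc]
    _ = _ := by
        rw [h2]
        congr 1
        noncomm_ring

lemma entry_bound {J : Finset (Fin d × Fin d)} {σ : Fin d × Fin d → ℝ} {w : Fin d → ℕ}
    {c C r R : ℝ} (hσ : ∀ e, σ e * σ e = 1) (hc : 0 < c) (hC : 0 < C) (hr : 0 < r) (hrR : r ≤ R)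
    (hR1 : R ≤ 1)
    {W : Matrix (Fin d) (Fin d) ℝ} (hW : Supp J W)
    (hW2 : ∀ e ∈ J, c * r ^ (w e.2 - w e.1) ≤ σ e * W e.1 e.2 ∧
      σ e * W e.1 e.2 ≤ C * r ^ (w e.2 - w e.1)) {a b : Fin d} {n : ℕ}
    (hn : (a, b) ∈ J → w a + n ≤ w b) : |W a b| ≤ C * R ^ n := by
  have hR0 : 0 < R := hr.trans_le hrR
  by_cases hab : (a, b) ∈ J
  · have h1 := hW2 _ hab
    have h2 : |W a b| = |σ (a, b) * W a b| := by
      have h3 : |σ (a, b)| * |σ (a, b)| = 1 := by rw [abs_mul_abs_self, hσ]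
      have h4 : |σ (a, b)| = 1 := by nlinarith [abs_nonneg (σ (a, b))]
      rw [abs_mul, h4, one_mul]
    have h5 : 0 ≤ σ (a, b) * W a b := le_trans (by positivity) h1.1
    rw [h2, abs_of_nonneg h5]
    refine h1.2.trans (mul_le_mul_of_nonneg_left ?_ hC.le)
    have h6 := hn hab
    calc r ^ (w (a, b).2 - w (a, b).1) ≤ R ^ (w (a, b).2 - w (a, b).1) :=
          pow_le_pow_left₀ hr.le hrR _
      _ ≤ R ^ n := pow_le_pow_of_le_one hR0.le hR1 (by simp only; omega)
  · rw [hW a b hab, abs_zero]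
    positivity

/-- **No uniform twins.** -/
theorem no_uniform {V ν : ℝ} (hV : 0 < V) (hν : 0 < ν)
    {M : Set (Matrix (Fin d) (Fin d) ℝ)} (hMdet : ∀ h ∈ M, |h.det| = V)
    (hMnu : ∀ h ∈ M, HasNu h ν) (hM : InvB id M) (hne : M.Nonempty)
    {J : Finset (Fin d × Fin d)} (hJ : J.Nonempty) {σ : Fin d × Fin d → ℝ}
    (hσ : ∀ e, σ e * σ e = 1) {s : Fin d → ℝ} (hs : ∀ l, s l * s l = 1) {w : Fin d → ℕ}
    (hwi : Function.Injective w) (hw : ∀ e ∈ J, w e.1 < w e.2) {c C : ℝ} (hc : 0 < c)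
    (hTw : ∀ h ∈ M, Tw M J σ s w c C 1 h) : False := by
  classical
  have hd : 0 < d := hJ.choose.1.pos
  have hcC : c ≤ C := by
    obtain ⟨h, hh⟩ := hne
    obtain ⟨W, -, hW, -⟩ := hTw h hh
    obtain ⟨e, he⟩ := hJ
    have h1 := hW e he
    simp only [one_pow, mul_one] at h1
    exact h1.1.trans h1.2
  have hC : 0 < C := hc.trans_le hcC
  -- the lowest level
  obtain ⟨e₀, he₀, hmin⟩ := Finset.exists_min_image J (fun e => w e.2 - w e.1) hJ
  set δ := w e₀.2 - w e₀.1 with hδ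
  have hδ1 : 1 ≤ δ := by have := hw e₀ he₀; omega
  obtain ⟨e₁, he₁, hmax⟩ := Finset.exists_max_image (J.filter fun e => w e.2 = w e.1 + δ)
    (fun e => w e.1) ⟨e₀, by rw [Finset.mem_filter]; exact ⟨he₀, by have := hw e₀ he₀; omega⟩⟩
  obtain ⟨i, j⟩ := e₁
  rw [Finset.mem_filter] at he₁
  obtain ⟨hijJ, hwij⟩ := he₁
  simp only at hwij hmax
  have F1 : ∀ a b, (a, b) ∈ J → w a + δ ≤ w b := by
    intro a b hab
    have h1 := hmin _ hab
    have h2 := hw _ hab
    simp only at h1 h2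
    omega
  have F2 : ∀ b, (j, b) ∈ J → w j + (δ + 1) ≤ w b := by
    intro b hb
    have h1 := F1 _ _ hb
    by_contra hcon
    have h2 : w b = w j + δ := by omega
    have h3 := hmax (j, b) (by rw [Finset.mem_filter]; exact ⟨hb, h2⟩)
    simp only at h3
    omega
  have F3 : ∀ b, b ≠ j → (i, b) ∈ J → w i + (δ + 1) ≤ w b := by
    intro b hbj hb
    have h1 := F1 _ _ hb
    by_contra hcon
    have h2 : w b = w j := by omega
    exact hbj (hwi h2)
  have hij : i ≠ j := by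
    intro h0
    rw [h0] at hwij
    omega
  set K : ℝ := 2 * C + d * C ^ 2 + 1 with hK
  have hd' : (0 : ℝ) < d := by exact_mod_cast hd
  have hK1 : 1 ≤ K := by
    have : 0 ≤ 2 * C + d * C ^ 2 := by positivity
    rw [hK]
    linarith
  set κ : ℝ := c / (2 * C) with hκ
  have hκ0 : 0 < κ := by positivity
  have hκ1 : κ ≤ 1 := by
    rw [hκ, div_le_one (by positivity)]
    linarith
  have hCκ : C * κ = c / 2 := by
    rw [hκ]
    field_simp
  refine no_drift (c := c / 2) (C := K) hν (fun h hh => ?_) hMnu hne hij (hσ (i, j)) (by positivity)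
    (by positivity) ?_
  · rw [← abs_ne_zero, hMdet h hh]
    exact hV.ne'
  intro ε hε
  set r : ℝ := min (1 / 2) (ε / (2 * K)) with hr
  have hr0 : 0 < r := by rw [hr]; exact lt_min (by norm_num) (by positivity)
  have hr1 : r ≤ 1 := (min_le_left _ _).trans (by norm_num)
  have hrε : K * r ≤ ε / 2 := by
    calc K * r ≤ K * (ε / (2 * K)) := mul_le_mul_of_nonneg_left (min_le_right _ _) (by positivity)
      _ = ε / 2 := by field_simp
  have hκr0 : 0 < κ * r := by positivity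
  have hκr : κ * r ≤ r := by nlinarith
  refine ⟨r ^ δ, pow_pos hr0 _, ?_, fun h hh => ?_⟩
  · have h1 : r ^ δ ≤ r := by
      calc r ^ δ ≤ r ^ 1 := pow_le_pow_of_le_one hr0.le hr1 hδ1
        _ = r := pow_one r
    nlinarith
  obtain ⟨W, hW1, hW2, hW3⟩ := Tw.scale hd hM hw hTw hr0 h hh
  obtain ⟨W', hW'1, hW'2, hW'3⟩ := Tw.scale hd hM hw hTw hκr0 _ hW3
  set W'' := diagonal s * W' * diagonal s with hW''
  have hWb : ∀ a b n, ((a, b) ∈ J → w a + n ≤ w b) → |W a b| ≤ C * r ^ n := fun a b n hn =>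
    entry_bound hσ hc hC hr0 le_rfl hr1 hW1 hW2 hn
  have hs1 : ∀ l, |s l| = 1 := by
    intro l
    have h3 : |s l| * |s l| = 1 := by rw [abs_mul_abs_self, hs]
    nlinarith [abs_nonneg (s l)]
  have hW''a : ∀ a b, W'' a b = s a * W' a b * s b := by
    intro a b
    rw [hW'', mul_diagonal, diagonal_mul]
  have hW''abs : ∀ a b, |W'' a b| = |W' a b| := by
    intro a b
    rw [hW''a, abs_mul, abs_mul, hs1, hs1, one_mul, mul_one]
  have hW'b : ∀ a b n, ((a, b) ∈ J → w a + n ≤ w b) → |W'' a b| ≤ C * r ^ n := by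
    intro a b n hn
    rw [hW''abs]
    exact entry_bound hσ hc hC hκr0 hκr hr1 hW'1 hW'2 hn
  have hprod : ∀ a b n, (∀ k, (a, k) ∈ J → w a + n ≤ w k) →
      |(W'' * W) a b| ≤ d * C ^ 2 * (r ^ n * r ^ δ) := by
    intro a b n hn
    rw [Matrix.mul_apply]
    have h1 : |∑ k, W'' a k * W k b| ≤ ∑ _k : Fin d, C * r ^ n * (C * r ^ δ) := by
      refine (Finset.abs_sum_le_sum_abs _ _).trans (Finset.sum_le_sum fun k _ => ?_)
      rw [abs_mul]
      exact mul_le_mul (hW'b a k n (hn k)) (hWb k b δ (F1 k b)) (abs_nonneg _) (by positivity)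
    rw [Finset.sum_const, Finset.card_univ, Fintype.card_fin, nsmul_eq_mul] at h1
    refine h1.trans (le_of_eq (by ring))
  refine ⟨W + W'' + W'' * W, ?_, ?_, ?_, ?_, ?_⟩
  · rw [← two_step hs]
    exact hW'3
  · intro a b
    have h1 := hWb a b δ (F1 a b)
    have h2 := hW'b a b δ (F1 a b)
    have h3 := hprod a b δ (F1 a)
    have h4 : r ^ δ ≤ 1 := pow_le_one₀ hr0.le hr1
    have h5 : 0 < r ^ δ := pow_pos hr0 _
    rw [Matrix.add_apply, Matrix.add_apply]
    calc |W a b + W'' a b + (W'' * W) a b| ≤ |W a b| + |W'' a b| + |(W'' * W) a b| :=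
          (abs_add_le _ _).trans (add_le_add_left (abs_add_le _ _) _)
      _ ≤ C * r ^ δ + C * r ^ δ + d * C ^ 2 * (r ^ δ * r ^ δ) := by linarith
      _ ≤ C * r ^ δ + C * r ^ δ + d * C ^ 2 * (r ^ δ * 1) := by gcongr
      _ ≤ K * r ^ δ := by rw [hK]; nlinarith
  · intro b
    have h1 := hWb j b (δ + 1) (F2 b)
    have h2 := hW'b j b (δ + 1) (F2 b)
    have h3 := hprod j b (δ + 1) F2
    have h4 : r ^ δ ≤ 1 := pow_le_one₀ hr0.le hr1
    have h5 : 0 < r ^ (δ + 1) := pow_pos hr0 _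
    rw [Matrix.add_apply, Matrix.add_apply]
    calc |W j b + W'' j b + (W'' * W) j b| ≤ |W j b| + |W'' j b| + |(W'' * W) j b| :=
          (abs_add_le _ _).trans (add_le_add_left (abs_add_le _ _) _)
      _ ≤ C * r ^ (δ + 1) + C * r ^ (δ + 1) + d * C ^ 2 * (r ^ (δ + 1) * r ^ δ) := by linarith
      _ ≤ C * r ^ (δ + 1) + C * r ^ (δ + 1) + d * C ^ 2 * (r ^ (δ + 1) * 1) := by gcongr
      _ ≤ K * r ^ (δ + 1) := by rw [hK]; nlinarith
      _ = (K * r) * r ^ δ := by ring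
      _ ≤ ε * r ^ δ := by
          refine mul_le_mul_of_nonneg_right ?_ (pow_pos hr0 _).le
          linarith
  · intro b hbj
    have h1 := hWb i b (δ + 1) (F3 b hbj)
    have h2 := hW'b i b (δ + 1) (F3 b hbj)
    have h3 := hprod i b δ (F1 i)
    have h4 : r ^ δ ≤ r := by
      calc r ^ δ ≤ r ^ 1 := pow_le_pow_of_le_one hr0.le hr1 hδ1
        _ = r := pow_one r
    have h5 : 0 < r ^ (δ + 1) := pow_pos hr0 _
    rw [Matrix.add_apply, Matrix.add_apply]
    calc |W i b + W'' i b + (W'' * W) i b| ≤ |W i b| + |W'' i b| + |(W'' * W) i b| :=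
          (abs_add_le _ _).trans (add_le_add_left (abs_add_le _ _) _)
      _ ≤ C * r ^ (δ + 1) + C * r ^ (δ + 1) + d * C ^ 2 * (r ^ δ * r ^ δ) := by linarith
      _ ≤ C * r ^ (δ + 1) + C * r ^ (δ + 1) + d * C ^ 2 * (r ^ δ * r) := by gcongr
      _ = (2 * C + d * C ^ 2) * r ^ (δ + 1) := by ring
      _ ≤ K * r ^ (δ + 1) := by rw [hK]; nlinarith
      _ = (K * r) * r ^ δ := by ring
      _ ≤ ε * r ^ δ := by
          refine mul_le_mul_of_nonneg_right ?_ (pow_pos hr0 _).le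
          linarith
  · have h0 : (W'' * W) i j = 0 := by
      rw [Matrix.mul_apply]
      refine Finset.sum_eq_zero fun k _ => ?_
      by_cases h1 : (i, k) ∈ J
      · by_cases h2 : (k, j) ∈ J
        · have h3 := F1 _ _ h1
          have h4 := F1 _ _ h2
          omega
        · rw [hW1 k j h2, mul_zero]
      · rw [hW''a, hW'1 i k h1, mul_zero, zero_mul, zero_mul]
    rw [Matrix.add_apply, Matrix.add_apply, h0, add_zero, mul_add]
    have hlev : w j - w i = δ := by omega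
    have h1 := (hW2 _ hijJ).1
    simp only [hlev] at h1
    have h2 : |σ (i, j) * W'' i j| ≤ C * (κ * r) ^ δ := by
      have h3 : |σ (i, j)| * |σ (i, j)| = 1 := by rw [abs_mul_abs_self, hσ]
      have h4 : |σ (i, j)| = 1 := by nlinarith [abs_nonneg (σ (i, j))]
      rw [abs_mul, h4, one_mul, hW''abs]
      exact entry_bound hσ hc hC hκr0 le_rfl (hκr.trans hr1) hW'1 hW'2 (fun _ => by omega)
    have h5 : C * (κ * r) ^ δ ≤ c / 2 * r ^ δ := by
      rw [mul_pow, ← mul_assoc]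
      refine mul_le_mul_of_nonneg_right ?_ (pow_pos hr0 _).le
      rw [← hCκ]
      refine mul_le_mul_of_nonneg_left ?_ hC.le
      calc κ ^ δ ≤ κ ^ 1 := pow_le_pow_of_le_one hκ0.le hκ1 hδ1
        _ = κ := pow_one κ
    have h6 := (abs_le.1 h2).1
    linarith

end Pool.Agent.H202.Twins
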