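import Mathlib
import Pool.Agent.H202.Twins

/-! # Generic points of a minimal set have no triangular twins -/

open Filter Topology Matrix

namespace Pool.Agent.H202.Twins

open H715R2 Y327

variable {d : ℕ}

lemma abs_eq_one_of_sq {x : ℝ} (hx : x * x = 1) : |x| = 1 := by
  have h3 : |x| * |x| = 1 := by rw [abs_mul_abs_self, hx]
  nlinarith [abs_nonneg x]

/-- the closed sets of matrices with a twin -/
def CC (M : Set (Matrix (Fin d) (Fin d) ℝ)) (J : Finset (Fin d × Fin d))
    (σ : Fin d × Fin d → ℝ) (s : Fin d → ℝ) (w : Fin d → ℕ) (n : ℕ) :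
    Set (Matrix (Fin d) (Fin d) ℝ) :=
  {h | h ∈ M ∧ Tw M J σ s w (((n : ℝ) + 1)⁻¹) ((n : ℝ) + 1) 1 h}

lemma isClosed_CC {M : Set (Matrix (Fin d) (Fin d) ℝ)} (hM : IsClosed M)
    (J : Finset (Fin d × Fin d)) {σ : Fin d × Fin d → ℝ} (hσ : ∀ e, σ e * σ e = 1)
    (s : Fin d → ℝ) (w : Fin d → ℕ) (n : ℕ) : IsClosed (CC M J σ s w n) := by
  classical
  refine isClosed_of_closure_subset fun h hh => ?_
  obtain ⟨u, hu, hlim⟩ := exists_seq_of_mem_closure hh
  have hhM : h ∈ M := hM.mem_of_tendsto hlim (Eventually.of_forall fun k => (hu k).1)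
  choose W hW1 hW2 hW3 using fun k => (hu k).2
  simp only [one_pow, mul_one] at hW2
  have hbox : ∀ k, W k ∈ {h : Matrix (Fin d) (Fin d) ℝ | ∀ i j, |h i j| ≤ (n : ℝ) + 1} := by
    intro k i j
    by_cases hij : (i, j) ∈ J
    · have h1 := hW2 k _ hij
      have h2 : |W k i j| = |σ (i, j) * W k i j| := by
        rw [abs_mul, abs_eq_one_of_sq (hσ (i, j)), one_mul]
      rw [h2, abs_of_nonneg (le_trans (by positivity) h1.1)]
      exact h1.2
    · rw [hW1 k i j hij, abs_zero]
      positivity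
  obtain ⟨W', -, φ, hφ, hlim'⟩ := (isCompact_box ((n : ℝ) + 1)).tendsto_subseq hbox
  have hent : ∀ a b, Tendsto (fun k => W (φ k) a b) atTop (𝓝 (W' a b)) := by
    intro a b
    exact ((continuous_apply_apply a b).tendsto W').comp hlim'
  refine ⟨hhM, W', ?_, ?_, ?_⟩
  · intro a b hab
    refine tendsto_nhds_unique (hent a b) ?_
    have : (fun k => W (φ k) a b) = fun _ => 0 := funext fun k => hW1 _ a b hab
    rw [this]
    exact tendsto_const_nhds
  · intro e he
    simp only [one_pow, mul_one]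
    exact ⟨ge_of_tendsto' ((hent e.1 e.2).const_mul (σ e)) fun k => (hW2 (φ k) e he).1,
      le_of_tendsto' ((hent e.1 e.2).const_mul (σ e)) fun k => (hW2 (φ k) e he).2⟩
  · have hcont : Continuous (fun p : Matrix (Fin d) (Fin d) ℝ × Matrix (Fin d) (Fin d) ℝ =>
        diagonal s * (1 + p.2) * p.1) :=
      (continuous_const.matrix_mul (continuous_const.add continuous_snd)).matrix_mul
        continuous_fst
    have h1 : Tendsto (fun k => (u (φ k), W (φ k))) atTop (𝓝 (h, W')) :=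
      (hlim.comp hφ.tendsto_atTop).prodMk_nhds hlim'
    exact hM.mem_of_tendsto ((hcont.tendsto _).comp h1)
      (Eventually.of_forall fun k => hW3 (φ k))

/-- the closed sets have empty interior -/
theorem CC_empty_interior {V ν : ℝ} (hV : 0 < V) (hν : 0 < ν)
    {M : Set (Matrix (Fin d) (Fin d) ℝ)} (hMdet : ∀ h ∈ M, |h.det| = V)
    (hMnu : ∀ h ∈ M, HasNu h ν) (hM : MinB id M)
    {J : Finset (Fin d × Fin d)} (hJ : J.Nonempty) {σ : Fin d × Fin d → ℝ}
    (hσ : ∀ e, σ e * σ e = 1) {s : Fin d → ℝ} (hs : ∀ l, s l * s l = 1) {w : Fin d → ℕ}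
    (hwi : Function.Injective w) (hw : ∀ e ∈ J, w e.1 < w e.2) (n : ℕ)
    {U : Set (Matrix (Fin d) (Fin d) ℝ)} (hU : IsOpen U) {h₀ : Matrix (Fin d) (Fin d) ℝ}
    (hh₀ : h₀ ∈ M) (hh₀U : h₀ ∈ U) (hUC : M ∩ U ⊆ CC M J σ s w n) : False := by
  classical
  have hd : 0 < d := hJ.choose.1.pos
  obtain ⟨B, hB, hret⟩ := exists_returnB hd hV hν hMdet hMnu hM hh₀ hU hh₀U
  have hB0 : 0 < B := by linarith
  refine no_uniform (c := ((n : ℝ) + 1)⁻¹ * (B⁻¹ * B⁻¹)) (C := ((n : ℝ) + 1) * (B * B)) hV hν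
    hMdet hMnu hM.inv ⟨h₀, hh₀⟩ hJ hσ hs hwi hw (by positivity) fun h hh => ?_
  obtain ⟨a, γ, ha, hγ, haB, hmem⟩ := hret h hh
  obtain ⟨-, W, hW1, hW2, hW3⟩ := hUC ⟨hM.inv h hh a γ ha hγ, hmem⟩
  simp only [one_pow, mul_one] at hW2
  refine ⟨Matrix.of fun x y => (a x)⁻¹ * W x y * a y, ?_, ?_, ?_⟩
  · intro x y hxy
    rw [Matrix.of_apply, hW1 x y hxy, mul_zero, zero_mul]
  · intro e he
    simp only [one_pow, mul_one]
    obtain ⟨h1, h2⟩ := hW2 e he
    have h3 : σ e * (Matrix.of fun x y => (a x)⁻¹ * W x y * a y) e.1 e.2 =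
        σ e * W e.1 e.2 * ((a e.1)⁻¹ * a e.2) := by
      rw [Matrix.of_apply]
      ring
    have h4 := haB e.1
    have h5 := haB e.2
    have h6 : 0 < a e.1 := ha.1 _
    have h7 : 0 < a e.2 := ha.1 _
    have h8 : B⁻¹ ≤ (a e.1)⁻¹ := inv_anti₀ h6 h4.1
    have h9 : (a e.1)⁻¹ ≤ B := by
      rw [inv_le_comm₀ h6 hB0]
      exact h4.2
    rw [h3]
    constructor
    · refine mul_le_mul h1 (mul_le_mul h8 h5.2 (by positivity) (by positivity)) (by positivity) ?_
      exact le_trans (by positivity) h1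
    · exact mul_le_mul h2 (mul_le_mul h9 h5.1 h7.le hB0.le) (by positivity) (by positivity)
  · have hinv : IsUnit (γ⁻¹ : Matrix (Fin d) (Fin d) ℤ).det := by
      rw [det_nonsing_inv]
      exact hγ.ringInverse
    have h1 := hM.inv.gam hW3 hinv
    have h2 := hM.inv.diag h1 ha.inv
    have h3 : diagonal s * (1 + W) * (diagonal a * h * zR γ) * zR γ⁻¹ =
        diagonal s * (1 + W) * (diagonal a * h) := by
      rw [Matrix.mul_assoc (diagonal s * (1 + W)), Matrix.mul_assoc (diagonal a * h), zR_inv hγ,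
        Matrix.mul_one]
    rw [h3] at h2
    have h4 := conj_identity (b := fun l => (a l)⁻¹) (fun l => (inv_pos.2 (ha.1 l)).ne') s W h
    simp only [inv_inv] at h4
    rw [h4] at h2
    exact h2

/-- signs -/
def sg (b : Bool) : ℝ := if b then 1 else -1

lemma sg_sq (b : Bool) : sg b * sg b = 1 := by
  unfold sg
  split_ifs <;> norm_num

/-- a triangular pattern has a linear order -/
lemma exists_perm (w : Fin d → ℝ) : ∃ π : Equiv.Perm (Fin d), ∀ a b, w a < w b → π a < π b := by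
  refine ⟨(Tuple.sort w).symm, fun a b hab => ?_⟩
  by_contra hcon
  rw [not_lt] at hcon
  have h1 := Tuple.monotone_sort w hcon
  simp only [Function.comp, Equiv.apply_symm_apply] at h1
  exact absurd hab (not_lt.2 h1)

lemma det_tri {q : Matrix (Fin d) (Fin d) ℝ} {π : Equiv.Perm (Fin d)}
    (hq : ∀ a b, a ≠ b → q a b ≠ 0 → π a < π b) : q.det = ∏ l, q l l := by
  have h1 : (q.submatrix π.symm π.symm).BlockTriangular id := by
    intro i j hij
    rw [submatrix_apply]
    by_contra hcon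
    have h2 : π.symm i ≠ π.symm j := fun h0 => absurd (π.symm.injective h0) (ne_of_gt hij)
    have h3 := hq _ _ h2 hcon
    rw [Equiv.apply_symm_apply, Equiv.apply_symm_apply] at h3
    exact absurd hij (not_lt.2 h3.le)
  have h2 := det_of_upperTriangular h1
  rw [det_submatrix_equiv_self] at h2
  rw [h2]
  simp only [submatrix_apply]
  exact Equiv.prod_comp (π.symm : Fin d ≃ Fin d) (fun l => q l l)

/-- **Generic points have no triangular twins.** -/
theorem generic {V ν : ℝ} (hV : 0 < V) (hν : 0 < ν)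
    {M : Set (Matrix (Fin d) (Fin d) ℝ)} (hMdet : ∀ h ∈ M, |h.det| = V)
    (hMnu : ∀ h ∈ M, HasNu h ν) (hM : MinB id M) :
    ∃ G ⊆ M, IsGδ G ∧ M ⊆ closure G ∧ ∀ h ∈ G, ∀ h' ∈ M, ∀ w : Fin d → ℝ,
      (∀ a b, a ≠ b → (h' * h⁻¹) a b ≠ 0 → w a < w b) →
        ∀ a b, a ≠ b → (h' * h⁻¹) a b = 0 := by
  classical
  set ι := Finset (Fin d × Fin d) × ((Fin d × Fin d) → Bool) × (Fin d → Bool) ×
    Equiv.Perm (Fin d) × ℕ with hι
  let P : ι → Prop := fun p => p.1.Nonempty ∧
    ∀ e ∈ p.1, ((p.2.2.2.1 e.1 : Fin d) : ℕ) < ((p.2.2.2.1 e.2 : Fin d) : ℕ)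
  let Z : ι → Set (Matrix (Fin d) (Fin d) ℝ) := fun p =>
    {h | P p ∧ h ∈ CC M p.1 (fun e => sg (p.2.1 e)) (fun l => sg (p.2.2.1 l))
      (fun l => ((p.2.2.2.1 l : Fin d) : ℕ)) p.2.2.2.2}
  have hZc : ∀ p, IsClosed (Z p) := by
    intro p
    by_cases hp : P p
    · have : Z p = CC M p.1 (fun e => sg (p.2.1 e)) (fun l => sg (p.2.2.1 l))
          (fun l => ((p.2.2.2.1 l : Fin d) : ℕ)) p.2.2.2.2 := by
        ext h
        exact ⟨fun h1 => h1.2, fun h1 => ⟨hp, h1⟩⟩
      rw [this]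
      exact isClosed_CC hM.closed _ (fun e => sg_sq _) _ _ _
    · have : Z p = ∅ := by
        ext h
        exact ⟨fun h1 => hp h1.1, fun h1 => h1.elim⟩
      rw [this]
      exact isClosed_empty
  have hZi : ∀ p, interior ((Subtype.val : M → Matrix (Fin d) (Fin d) ℝ) ⁻¹' Z p) = ∅ := by
    intro p
    rw [Set.eq_empty_iff_forall_notMem]
    intro h₀ hh₀
    obtain ⟨O, hO, hOo, hh₀O⟩ := mem_interior.1 hh₀
    obtain ⟨U, hU, rfl⟩ := isOpen_induced_iff.1 hOo
    have hp : P p := (hO hh₀O).1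
    refine CC_empty_interior hV hν hMdet hMnu hM hp.1 (fun e => sg_sq (p.2.1 e))
      (fun l => sg_sq (p.2.2.1 l)) (w := fun l => ((p.2.2.2.1 l : Fin d) : ℕ))
      (fun a b hab => p.2.2.2.1.injective (Fin.ext hab)) hp.2 p.2.2.2.2 hU h₀.2 hh₀O ?_
    rintro h ⟨h1, h2⟩
    exact (hO (show (⟨h, h1⟩ : M) ∈ Subtype.val ⁻¹' U from h2)).2
  have hlc : LocallyCompactSpace M := hM.closed.locallyCompactSpace
  have hBs : BaireSpace M := BaireSpace.of_t2Space_locallyCompactSpace
  have hdense : Dense (⋂ p, ((Subtype.val : M → Matrix (Fin d) (Fin d) ℝ) ⁻¹' Z p)ᶜ) := by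
    refine dense_iInter_of_isOpen (fun p => ((hZc p).preimage continuous_subtype_val).isOpen_compl)
      fun p => ?_
    rw [← interior_eq_empty_iff_dense_compl]
    exact hZi p
  refine ⟨M ∩ ⋂ p, (Z p)ᶜ, Set.inter_subset_left, ?_, ?_, ?_⟩
  · refine IsGδ.inter ?_ (IsGδ.iInter_of_isOpen fun p => (hZc p).isOpen_compl)
    have h1 : IsClosed (X := Fin d → Fin d → ℝ) M := hM.closed
    exact h1.isGδ
  · intro h hh
    have h1 : (⟨h, hh⟩ : M) ∈ closure (⋂ p, ((Subtype.val : M → Matrix (Fin d) (Fin d) ℝ) ⁻¹'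
      Z p)ᶜ) := hdense _
    have h2 := image_closure_subset_closure_image continuous_subtype_val
      (Set.mem_image_of_mem _ h1)
    refine closure_mono ?_ h2
    rintro _ ⟨x, hx, rfl⟩
    refine ⟨x.2, ?_⟩
    rw [Set.mem_iInter] at hx ⊢
    exact hx
  · rintro h ⟨hh, hhZ⟩ h' hh' w hw
    by_contra hcon
    push Not at hcon
    obtain ⟨a₀, b₀, hab₀, hq₀⟩ := hcon
    set q := h' * h⁻¹ with hq
    have hdet : h.det ≠ 0 := by rw [← abs_ne_zero, hMdet h hh]; exact hV.ne'
    have hqh : q * h = h' := by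
      rw [hq, Matrix.mul_assoc, nonsing_inv_mul _ (isUnit_iff_ne_zero.2 hdet), Matrix.mul_one]
    obtain ⟨π, hπ⟩ := exists_perm w
    have hqπ : ∀ a b, a ≠ b → q a b ≠ 0 → π a < π b := fun a b hab h0 => hπ a b (hw a b hab h0)
    have hdetq : |q.det| = 1 := by
      have h1 : |q.det| * V = V := by
        rw [← hMdet h hh, ← abs_mul, ← det_mul, hqh, hMdet h' hh', hMdet h hh]
      exact mul_right_cancel₀ hV.ne' (by rw [h1, one_mul])
    rw [det_tri hqπ, Finset.abs_prod] at hdetq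
    have hΔ : ∀ l, q l l ≠ 0 := by
      intro l h0
      rw [Finset.prod_eq_zero (Finset.mem_univ l) (by rw [h0, abs_zero])] at hdetq
      exact zero_ne_one hdetq
    set a : Fin d → ℝ := fun l => |q l l|⁻¹ with ha
    have haB : BB id a := by
      refine ⟨fun l => inv_pos.2 (abs_pos.2 (hΔ l)), ?_, fun i j hij => by
        rw [show i = j from hij]⟩
      rw [ha, Finset.prod_inv_distrib, hdetq, inv_one]
    have hmem := hM.inv.diag hh' haB
    set W : Matrix (Fin d) (Fin d) ℝ := Matrix.of fun x y => if x = y then 0 else q x y / q x x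
      with hW
    have hsl : ∀ l, sg (decide (0 < q l l)) = |q l l|⁻¹ * q l l := by
      intro l
      rcases lt_or_gt_of_ne (hΔ l) with h0 | h0
      · rw [sg, decide_eq_false (not_lt.2 h0.le), abs_of_neg h0]
        simp only [Bool.false_eq_true, if_false]
        field_simp [h0.ne]
      · rw [sg, decide_eq_true h0, abs_of_pos h0]
        simp only [if_true]
        field_simp [h0.ne']
    have hdec : diagonal a * h' =
        diagonal (fun l => sg (decide (0 < q l l))) * (1 + W) * h := by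
      rw [← hqh, ← Matrix.mul_assoc]
      congr 1
      ext x y
      rw [diagonal_mul, diagonal_mul, Matrix.add_apply, hsl, hW, Matrix.of_apply, Matrix.one_apply]
      by_cases hxy : x = y
      · subst hxy
        simp only [if_true, add_zero, mul_one, ha]
      · simp only [if_neg hxy, zero_add, ha]
        field_simp [hΔ x]
    set J : Finset (Fin d × Fin d) := Finset.univ.filter fun e => W e.1 e.2 ≠ 0 with hJ
    obtain ⟨n, hn⟩ := exists_nat_ge (∑ e ∈ J, (|W e.1 e.2| + |W e.1 e.2|⁻¹))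
    have hJW : ∀ e ∈ J, e.1 ≠ e.2 ∧ q e.1 e.2 ≠ 0 := by
      intro e he
      have h1 := (Finset.mem_filter.1 he).2
      constructor
      · intro h2
        rw [hW, Matrix.of_apply, if_pos h2] at h1
        exact h1 rfl
      · intro h2
        rw [hW, Matrix.of_apply, h2, zero_div, ite_self] at h1
        exact h1 rfl
    rw [Set.mem_iInter] at hhZ
    refine hhZ (J, fun e => decide (0 < W e.1 e.2), fun l => decide (0 < q l l), π, n) ⟨⟨?_, ?_⟩,
      hh, W, ?_, ?_, ?_⟩
    · refine ⟨(a₀, b₀), Finset.mem_filter.2 ⟨Finset.mem_univ _, ?_⟩⟩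
      rw [hW, Matrix.of_apply, if_neg hab₀]
      exact div_ne_zero hq₀ (hΔ _)
    · intro e he
      exact hqπ _ _ (hJW e he).1 (hJW e he).2
    · intro x y hxy
      by_contra h0
      exact hxy (Finset.mem_filter.2 ⟨Finset.mem_univ _, h0⟩)
    · intro e he
      have h0 : W e.1 e.2 ≠ 0 := (Finset.mem_filter.1 he).2
      have h1 : |W e.1 e.2| + |W e.1 e.2|⁻¹ ≤ n := by
        refine le_trans ?_ hn
        exact Finset.single_le_sum (f := fun e => |W e.1 e.2| + |W e.1 e.2|⁻¹)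
          (fun _ _ => by positivity) he
      have h2 : 0 < |W e.1 e.2| := abs_pos.2 h0
      have h3 : 0 < |W e.1 e.2|⁻¹ := inv_pos.2 h2
      have h4 : sg (decide (0 < W e.1 e.2)) * W e.1 e.2 = |W e.1 e.2| := by
        rcases lt_or_gt_of_ne h0 with h5 | h5
        · rw [sg, decide_eq_false (not_lt.2 h5.le), abs_of_neg h5]
          simp
        · rw [sg, decide_eq_true h5, abs_of_pos h5]
          simp
      simp only [one_pow, mul_one]
      rw [h4]
      constructor
      · rw [inv_le_comm₀ (by positivity) h2]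
        linarith
      · linarith
    · simp only
      rw [← hdec]
      exact hmem

end Pool.Agent.H202.Twins
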