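import Mathlib
import Pool.Agent.H202.Generic

/-! # Asymptotic trajectories -/

open Filter Topology Matrix

namespace Pool.Agent.H202.Twins

open H715R2 Y327

variable {d : ℕ}

lemma zR_tendsto_one {N : ℕ → Matrix (Fin d) (Fin d) ℤ}
    (h : Tendsto (fun n => zR (N n)) atTop (𝓝 1)) : ∀ᶠ n in atTop, N n = 1 := by
  have h1 : ∀ a b, ∀ᶠ n in atTop, N n a b = (1 : Matrix (Fin d) (Fin d) ℤ) a b := by
    intro a b
    have h2 : Tendsto (fun n => zR (N n) a b) atTop
        (𝓝 ((1 : Matrix (Fin d) (Fin d) ℝ) a b)) :=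
      ((continuous_apply_apply a b).tendsto (1 : Matrix (Fin d) (Fin d) ℝ)).comp h
    have h3 : (1 : Matrix (Fin d) (Fin d) ℝ) a b =
        (((1 : Matrix (Fin d) (Fin d) ℤ) a b : ℤ) : ℝ) := by
      rw [Matrix.one_apply, Matrix.one_apply]
      split_ifs <;> simp
    rw [h3] at h2
    have h4 := (Metric.tendsto_nhds.1 h2) 1 one_pos
    filter_upwards [h4] with n hn
    have h5 : |((N n a b - (1 : Matrix (Fin d) (Fin d) ℤ) a b : ℤ) : ℝ)| < 1 := by
      rw [Int.cast_sub]
      exact hn
    have h6 : |N n a b - (1 : Matrix (Fin d) (Fin d) ℤ) a b| < 1 := by exact_mod_cast h5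
    rw [Int.abs_lt_one_iff] at h6
    omega
  have h2 : ∀ᶠ n in atTop, ∀ a b, N n a b = (1 : Matrix (Fin d) (Fin d) ℤ) a b := by
    rw [eventually_all]
    intro a
    rw [eventually_all]
    exact h1 a
  filter_upwards [h2] with n hn
  ext a b
  exact hn a b

/-- The transition matrices of asymptotic trajectories are eventually constant. -/
theorem asymp_const (hd : 0 < d) {V ν : ℝ} (hV : 0 < V) (hν : 0 < ν)
    {h h' : Matrix (Fin d) (Fin d) ℝ} (hdet : |h.det| = V) (hdet' : |h'.det| = V)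
    (hnu : HasNu h ν) {a : Fin d → ℝ} (ha : BB id a)
    {γ : ℕ → Matrix (Fin d) (Fin d) ℤ} (hγ : ∀ k, IsUnit (γ k).det) {D : Fin d → ℝ}
    (hlim : Tendsto (fun k : ℕ => diagonal (fun i => a i ^ k) * (h' * zR (γ k)) *
      (diagonal (fun i => a i ^ k) * h)⁻¹) atTop (𝓝 (diagonal D))) :
    ∃ γ₀ : Matrix (Fin d) (Fin d) ℤ, IsUnit γ₀.det ∧ (∀ᶠ k in atTop, γ k = γ₀) ∧
      ∀ x y, x ≠ y → (h' * zR γ₀ * h⁻¹) x y ≠ 0 → a x < a y := by
  classical
  set A : ℕ → Matrix (Fin d) (Fin d) ℝ := fun k => diagonal (fun i => a i ^ k) with hA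
  set A' : ℕ → Matrix (Fin d) (Fin d) ℝ := fun k => diagonal (fun i => (a i ^ k)⁻¹) with hA'
  have hapos : ∀ i k, (0 : ℝ) < a i ^ k := fun i k => pow_pos (ha.1 i) k
  have hAA' : ∀ k, A k * A' k = 1 := by
    intro k
    rw [hA, hA', diagonal_mul_diagonal]
    have : (fun i => a i ^ k * (a i ^ k)⁻¹) = fun _ => (1 : ℝ) :=
      funext fun i => mul_inv_cancel₀ (hapos i k).ne'
    rw [this, diagonal_one]
  have hA'A : ∀ k, A' k * A k = 1 := fun k => mul_eq_one_comm.1 (hAA' k)
  have hAdet : ∀ k, (A k).det = 1 := by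
    intro k
    rw [hA, det_diagonal, Finset.prod_pow, ha.2.1, one_pow]
  have hu : IsUnit h.det := by
    rw [isUnit_iff_ne_zero, ← abs_ne_zero, hdet]
    exact hV.ne'
  have hAinv : ∀ k, (A k)⁻¹ = A' k := fun k => Matrix.inv_eq_left_inv (hA'A k)
  set u : ℕ → Matrix (Fin d) (Fin d) ℝ := fun k => A k * (h' * zR (γ k)) * (A k * h)⁻¹ with hu'
  have hudef : ∀ k, u k = A k * (h' * zR (γ k)) * h⁻¹ * A' k := by
    intro k
    rw [hu']
    simp only
    rw [Matrix.mul_inv_rev, hAinv, ← Matrix.mul_assoc]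
  -- the limit is invertible
  have hudet : ∀ k, |(u k).det| = 1 := by
    intro k
    rw [hu']
    simp only
    rw [det_mul, det_mul, det_mul, hAdet, one_mul, det_nonsing_inv, det_mul, hAdet, one_mul,
      det_zR, Ring.inverse_eq_inv', abs_mul, abs_mul, abs_det_of_isUnit (hγ k), mul_one, hdet',
      abs_inv, hdet, mul_inv_cancel₀ hV.ne']
  have hDdet : |(diagonal D).det| = 1 := by
    have h1 : Tendsto (fun k => |(u k).det|) atTop (𝓝 |(diagonal D).det|) :=
      ((continuous_abs.comp continuous_det').tendsto _).comp hlim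
    have h2 : (fun k => |(u k).det|) = fun _ => (1 : ℝ) := funext hudet
    rw [h2] at h1
    exact tendsto_nhds_unique h1 tendsto_const_nhds |>.symm ▸ rfl
  have hDdet0 : (diagonal D).det ≠ 0 := by
    rw [← abs_ne_zero, hDdet]
    exact one_ne_zero
  -- eventually constant
  have hconst : ∀ᶠ k in atTop, γ (k + 1) = γ k := by
    by_contra hcon
    have hfreq : ∃ᶠ k in atTop, γ (k + 1) ≠ γ k := by
      intro h0
      refine hcon (h0.mono fun k hk => ?_)
      exact not_not.1 hk
    obtain ⟨φ, hφ, hφγ⟩ := extraction_of_frequently_atTop hfreq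
    obtain ⟨R, hR⟩ := exists_bound hd V ν hV hν
    have hnuA : ∀ k, HasNu (A k * h) ν := by
      intro k m hm
      have h1 : ∏ i, (fun i => a i ^ k) i = 1 := by
        rw [Finset.prod_pow, ha.2.1, one_pow]
      rw [hA]
      simp only
      rw [FF_diag_mul, h1, one_mul]
      exact hnu m hm
    choose θ hθ hθR using fun k => hR (A k * h) (by rw [det_mul, hAdet, one_mul, hdet]) (hnuA k)
    set t : ℕ → Matrix (Fin d) (Fin d) ℝ := fun k => A k * h * zR (θ k) with ht
    obtain ⟨t', -, ψ, hψ, hlim'⟩ := (isCompact_box R).tendsto_subseq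
      (x := fun n => t (φ n)) (fun n => hθR (φ n))
    have htdet : ∀ k, |(t k).det| = V := by
      intro k
      rw [ht]
      simp only
      rw [det_mul, det_mul, hAdet, one_mul, det_zR, abs_mul, abs_det_of_isUnit (hθ k), mul_one,
        hdet]
    have ht'det : t'.det ≠ 0 := by
      have h1 : Tendsto (fun k => |((fun n => t (φ n)) (ψ k)).det|) atTop (𝓝 |t'.det|) :=
        ((continuous_abs.comp continuous_det').tendsto _).comp hlim'
      have h2 : (fun k => |((fun n => t (φ n)) (ψ k)).det|) = fun _ => V :=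
        funext fun k => htdet _
      rw [h2] at h1
      have h3 := tendsto_nhds_unique h1 tendsto_const_nhds
      rw [← abs_ne_zero, h3]
      exact hV.ne'
    have hφψ : Tendsto (fun n => φ (ψ n)) atTop atTop :=
      hφ.tendsto_atTop.comp hψ.tendsto_atTop
    set N : ℕ → Matrix (Fin d) (Fin d) ℤ := fun k => (θ k)⁻¹ * ((γ k)⁻¹ * (γ (k + 1) * θ k))
      with hN
    have hkey : ∀ k, u k * (t k * zR (N k)) = (A' 1 * u (k + 1) * A 1) * t k := by
      intro k
      have hAh : IsUnit (A k * h).det := by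
        rw [det_mul, hAdet, one_mul]
        exact hu
      have e1 : t k * zR (N k) = (A k * h) * (zR (γ k)⁻¹ * (zR (γ (k + 1)) * zR (θ k))) := by
        rw [ht, hN]
        simp only
        rw [zR_mul, zR_mul, zR_mul, Matrix.mul_assoc (A k * h), ← Matrix.mul_assoc (zR (θ k)),
          zR_inv (hθ k), Matrix.one_mul]
      have e2 : u k * (t k * zR (N k)) = A k * h' * (zR (γ (k + 1)) * zR (θ k)) := by
        rw [e1, hu']
        simp only
        rw [Matrix.mul_assoc _ (A k * h)⁻¹, ← Matrix.mul_assoc (A k * h)⁻¹,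
          nonsing_inv_mul _ hAh, Matrix.one_mul, Matrix.mul_assoc (A k), Matrix.mul_assoc h',
          ← Matrix.mul_assoc (zR (γ k)), zR_inv (hγ k), Matrix.one_mul, Matrix.mul_assoc (A k)]
      have e3 : A' 1 * A (k + 1) = A k := by
        rw [hA, hA']
        simp only
        rw [diagonal_mul_diagonal]
        congr 1
        funext i
        rw [pow_one, pow_succ, mul_comm (a i ^ k), ← mul_assoc, inv_mul_cancel₀ (ha.1 i).ne',
          one_mul]
      have e4 : A' (k + 1) * A 1 = A' k := by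
        rw [hA, hA']
        simp only
        rw [diagonal_mul_diagonal]
        congr 1
        funext i
        rw [pow_one, pow_succ, mul_inv, mul_assoc, inv_mul_cancel₀ (ha.1 i).ne', mul_one]
      have e5 : A' 1 * u (k + 1) * A 1 = A k * (h' * zR (γ (k + 1))) * h⁻¹ * A' k := by
        rw [hudef]
        calc A' 1 * (A (k + 1) * (h' * zR (γ (k + 1))) * h⁻¹ * A' (k + 1)) * A 1
            = (A' 1 * A (k + 1)) * (h' * zR (γ (k + 1))) * h⁻¹ * (A' (k + 1) * A 1) := by
              simp only [Matrix.mul_assoc]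
          _ = _ := by rw [e3, e4]
      rw [e2, e5, ht]
      simp only
      calc A k * h' * (zR (γ (k + 1)) * zR (θ k))
          = A k * (h' * zR (γ (k + 1))) * (h⁻¹ * ((A' k * A k) * h)) * zR (θ k) := by
            rw [hA'A, Matrix.one_mul, nonsing_inv_mul _ hu, Matrix.mul_one]
            simp only [Matrix.mul_assoc]
        _ = _ := by simp only [Matrix.mul_assoc]
    have hNeq : ∀ k, zR (N k) = (t k)⁻¹ * ((u k)⁻¹ * ((A' 1 * u (k + 1) * A 1) * t k)) := by
      intro k
      have h1 : IsUnit (t k).det := by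
        rw [isUnit_iff_ne_zero, ← abs_ne_zero, htdet]
        exact hV.ne'
      have h2 : IsUnit (u k).det := by
        rw [isUnit_iff_ne_zero, ← abs_ne_zero, hudet]
        exact one_ne_zero
      rw [← hkey, ← Matrix.mul_assoc (u k)⁻¹, nonsing_inv_mul _ h2, Matrix.one_mul,
        ← Matrix.mul_assoc, nonsing_inv_mul _ h1, Matrix.one_mul]
    have hNlim : Tendsto (fun n => zR (N (φ (ψ n)))) atTop (𝓝 1) := by
      have h1 : Tendsto (fun n => (t (φ (ψ n)))⁻¹) atTop (𝓝 t'⁻¹) :=
        tendsto_inv_mat hlim' ht'det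
      have h2 : Tendsto (fun n => (u (φ (ψ n)))⁻¹) atTop (𝓝 (diagonal D)⁻¹) :=
        tendsto_inv_mat (hlim.comp hφψ) hDdet0
      have h3 : Tendsto (fun n => u (φ (ψ n) + 1)) atTop (𝓝 (diagonal D)) :=
        hlim.comp ((tendsto_add_atTop_nat 1).comp hφψ)
      have h4 : Tendsto (fun n => (t (φ (ψ n)))⁻¹ * ((u (φ (ψ n)))⁻¹ *
          ((A' 1 * u (φ (ψ n) + 1) * A 1) * t (φ (ψ n))))) atTop
          (𝓝 (t'⁻¹ * ((diagonal D)⁻¹ * ((A' 1 * diagonal D * A 1) * t')))) :=
        h1.mul (h2.mul (((tendsto_const_nhds.mul h3).mul tendsto_const_nhds).mul hlim'))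
      have h5 : t'⁻¹ * ((diagonal D)⁻¹ * ((A' 1 * diagonal D * A 1) * t')) = 1 := by
        have h6 : A' 1 * diagonal D * A 1 = diagonal D := by
          rw [hA, hA']
          simp only
          rw [diagonal_mul_diagonal, diagonal_mul_diagonal]
          congr 1
          funext i
          have := (ha.1 i).ne'
          rw [pow_one]
          field_simp
        rw [h6, ← Matrix.mul_assoc (diagonal D)⁻¹,
          nonsing_inv_mul _ (isUnit_iff_ne_zero.2 hDdet0), Matrix.one_mul,
          nonsing_inv_mul _ (isUnit_iff_ne_zero.2 ht'det)]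
      rw [h5] at h4
      refine h4.congr fun n => ?_
      rw [hNeq]
    obtain ⟨n, hn⟩ := (zR_tendsto_one hNlim).exists
    refine hφγ (ψ n) ?_
    set k := φ (ψ n) with hk
    have h1 : θ k * ((θ k)⁻¹ * ((γ k)⁻¹ * (γ (k + 1) * θ k))) * (θ k)⁻¹ = 1 := by
      have h2 : (θ k)⁻¹ * ((γ k)⁻¹ * (γ (k + 1) * θ k)) = 1 := hn
      rw [h2, Matrix.mul_one, mul_nonsing_inv _ (hθ k)]
    rw [← Matrix.mul_assoc (θ k), mul_nonsing_inv _ (hθ k), Matrix.one_mul, Matrix.mul_assoc,
      Matrix.mul_assoc, mul_nonsing_inv _ (hθ k), Matrix.mul_one] at h1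
    calc γ (k + 1) = γ k * ((γ k)⁻¹ * γ (k + 1)) := by
          rw [← Matrix.mul_assoc, mul_nonsing_inv _ (hγ k), Matrix.one_mul]
      _ = γ k := by rw [h1, Matrix.mul_one]
  obtain ⟨K, hK⟩ := eventually_atTop.1 hconst
  have hK' : ∀ k, K ≤ k → γ k = γ K := by
    intro k hk
    induction k, hk using Nat.le_induction with
    | base => rfl
    | succ k hk ih => rw [hK k hk, ih]
  refine ⟨γ K, hγ K, eventually_atTop.2 ⟨K, hK'⟩, fun x y hxy hq => ?_⟩
  by_contra hcon
  rw [not_lt] at hcon
  set q := h' * zR (γ K) * h⁻¹ with hq'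
  have h1 : Tendsto (fun k => u k x y) atTop (𝓝 0) := by
    have h2 := ((continuous_apply_apply x y).tendsto (diagonal D)).comp hlim
    rw [diagonal_apply_ne _ hxy] at h2
    exact h2
  have h2 : ∀ᶠ k in atTop, |q x y| ≤ |u k x y| := by
    filter_upwards [eventually_ge_atTop K] with k hk
    have h3 : u k x y = a x ^ k * q x y * (a y ^ k)⁻¹ := by
      rw [hudef, hK' k hk]
      have h4 : A k * (h' * zR (γ K)) * h⁻¹ * A' k = A k * q * A' k := by
        rw [hq']
        simp only [Matrix.mul_assoc]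
      rw [h4, hA, hA', mul_diagonal, diagonal_mul]
    rw [h3, abs_mul, abs_mul, abs_of_pos (hapos x k), abs_of_pos (inv_pos.2 (hapos y k))]
    have h5 : 1 ≤ a x ^ k * (a y ^ k)⁻¹ := by
      rw [← div_eq_mul_inv, one_le_div (hapos y k)]
      exact pow_le_pow_left₀ (ha.1 y).le hcon k
    nlinarith [abs_nonneg (q x y)]
  have h3 : Tendsto (fun k => |u k x y|) atTop (𝓝 0) := by
    have := h1.abs
    rwa [abs_zero] at this
  have h4 := ge_of_tendsto h3 h2
  exact absurd (abs_nonpos_iff.1 h4) hq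

/-- two integral products related by a triangular matrix -/
theorem tri_diag_of_propInt {ν : ℝ} (hν : 0 < ν) {h q : Matrix (Fin d) (Fin d) ℝ}
    (hdet : h.det ≠ 0) (hnu : HasNu h ν) (hP : PropInt h) (hqdet : q.det ≠ 0)
    (hnu' : HasNu (q * h) ν) (hP' : PropInt (q * h)) {π : Equiv.Perm (Fin d)}
    (hq : ∀ a b, a ≠ b → q a b ≠ 0 → π a < π b) : ∀ a b, a ≠ b → q a b = 0 := by
  classical
  intro a₀ b₀ hab₀
  have hd0 : 0 < d := a₀.pos
  have hdet' : (q * h).det ≠ 0 := by
    rw [det_mul]
    exact mul_ne_zero hqdet hdet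
  have hnz : ∀ (h : Matrix (Fin d) (Fin d) ℝ), HasNu h ν → ∀ p : Fin d → ℤ, p ≠ 0 →
      FF h (iR p) ≠ 0 := by
    intro h hh p hp h0
    have h1 := hh p hp
    rw [h0, abs_zero] at h1
    exact absurd h1 (not_le.2 hν)
  obtain ⟨A, -, hA1, -, hA2⟩ := Pool.Agent.H905R2.Opp.oppA h hd0 hdet hP (hnz h hnu)
  obtain ⟨B, -, hB1, -, hB2⟩ := Pool.Agent.H905R2.Opp.oppA (q * h) hd0 hdet' hP' (hnz _ hnu')
  obtain ⟨lam, hlam, hAg⟩ := eig_of_opp hdet hA1 hA2
  obtain ⟨mu, hmu, hBg⟩ := eig_of_opp hdet' hB1 hB2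
  -- the last row
  set i : Fin d := π.symm ⟨d - 1, by omega⟩ with hi
  have hrow : (q * h) i = q i i • h i := by
    funext l
    rw [Matrix.mul_apply, Finset.sum_eq_single i]
    · rfl
    · intro b _ hb
      by_contra h0
      have h1 : q i b ≠ 0 := fun h1 => h0 (by rw [h1, zero_mul])
      have h2 := hq i b hb.symm h1
      rw [hi, Equiv.apply_symm_apply, Fin.lt_def] at h2
      have h3 := (π b).2
      simp only at h2
      omega
    · intro h0
      exact absurd (Finset.mem_univ i) h0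
  have hqd : ∀ l, q l l ≠ 0 := by
    intro l h0
    refine hqdet ?_
    rw [det_tri hq]
    exact Finset.prod_eq_zero (Finset.mem_univ l) h0
  have hArow : h i ᵥ* zR A = lam i • h i := by
    funext j
    have h1 := congrFun (congrFun hAg i) j
    rw [Matrix.diagonal_mul] at h1
    exact h1
  have hBrow : h i ᵥ* zR B = mu i • h i := by
    have h1 : (q * h) i ᵥ* zR B = mu i • (q * h) i := by
      funext j
      have h1 := congrFun (congrFun hBg i) j
      rw [Matrix.diagonal_mul] at h1
      exact h1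
    rw [hrow, Matrix.smul_vecMul, smul_comm] at h1
    exact smul_right_injective _ (hqd i) h1
  have hcomm : A * B = B * A := by
    have h1 : h i ᵥ* zR (A * B - B * A) = 0 := by
      have h2 : zR (A * B - B * A) = zR A * zR B - zR B * zR A := by
        rw [← zR_mul, ← zR_mul]
        ext a b
        simp [zR]
      rw [h2, Matrix.vecMul_sub, ← Matrix.vecMul_vecMul, ← Matrix.vecMul_vecMul, hArow, hBrow,
        Matrix.smul_vecMul, Matrix.smul_vecMul, hArow, hBrow, smul_smul, smul_smul, mul_comm,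
        sub_self]
    exact sub_eq_zero.1 (row_indep hν hnu i _ h1)
  -- `h B h⁻¹` is diagonal
  have hu : IsUnit h.det := isUnit_iff_ne_zero.2 hdet
  set C := h * zR B * h⁻¹ with hC
  have hCh : C * h = h * zR B := by
    rw [hC, Matrix.mul_assoc, nonsing_inv_mul _ hu, Matrix.mul_one]
  have hCcomm : C * diagonal lam = diagonal lam * C := by
    have h1 : C * diagonal lam * h = diagonal lam * C * h := by
      calc C * diagonal lam * h = C * (h * zR A) := by rw [Matrix.mul_assoc, hAg]
        _ = h * zR B * zR A := by rw [← Matrix.mul_assoc, hCh]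
        _ = h * (zR B * zR A) := Matrix.mul_assoc _ _ _
        _ = h * (zR A * zR B) := by rw [← zR_mul, ← zR_mul, hcomm]
        _ = (h * zR A) * zR B := (Matrix.mul_assoc _ _ _).symm
        _ = diagonal lam * (h * zR B) := by rw [hAg, Matrix.mul_assoc]
        _ = diagonal lam * (C * h) := by rw [hCh]
        _ = diagonal lam * C * h := (Matrix.mul_assoc _ _ _).symm
    calc C * diagonal lam = C * diagonal lam * h * h⁻¹ := by
          rw [Matrix.mul_assoc _ h, mul_nonsing_inv _ hu, Matrix.mul_one]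
      _ = diagonal lam * C * h * h⁻¹ := by rw [h1]
      _ = diagonal lam * C := by rw [Matrix.mul_assoc _ h, mul_nonsing_inv _ hu, Matrix.mul_one]
  have hCdiag : ∀ a b, a ≠ b → C a b = 0 := by
    intro a b hab
    have h1 := congrFun (congrFun hCcomm a) b
    rw [mul_diagonal, diagonal_mul] at h1
    have h2 : C a b * (lam b - lam a) = 0 := by linarith
    rcases mul_eq_zero.1 h2 with h3 | h3
    · exact h3
    · exact absurd (hlam (sub_eq_zero.1 h3)).symm hab
  -- compare
  have hqC : q * C = diagonal mu * q := by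
    have h1 : q * C * h = diagonal mu * q * h := by
      rw [Matrix.mul_assoc, hCh, ← Matrix.mul_assoc, hBg, Matrix.mul_assoc]
    calc q * C = q * C * h * h⁻¹ := by
          rw [Matrix.mul_assoc _ h, mul_nonsing_inv _ hu, Matrix.mul_one]
      _ = diagonal mu * q * h * h⁻¹ := by rw [h1]
      _ = diagonal mu * q := by rw [Matrix.mul_assoc _ h, mul_nonsing_inv _ hu, Matrix.mul_one]
  have hent : ∀ a b, q a b * C b b = mu a * q a b := by
    intro a b
    have h1 := congrFun (congrFun hqC a) b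
    rw [Matrix.mul_apply, Finset.sum_eq_single b, diagonal_mul] at h1
    · exact h1
    · intro l _ hl
      rw [hCdiag l b hl, mul_zero]
    · intro h0
      exact absurd (Finset.mem_univ b) h0
  have hCmu : ∀ a, C a a = mu a := by
    intro a
    have h1 := hent a a
    rw [mul_comm] at h1
    exact mul_right_cancel₀ (hqd a) h1
  have h1 := hent a₀ b₀
  rw [hCmu] at h1
  have h2 : q a₀ b₀ * (mu b₀ - mu a₀) = 0 := by linarith
  rcases mul_eq_zero.1 h2 with h3 | h3
  · exact h3
  · exact absurd (hmu (sub_eq_zero.1 h3)).symm hab₀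

end Pool.Agent.H202.Twins
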