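import Mathlib

/-! # The theorem of Morse and Hedlund on words of low complexity -/

namespace Pool.Agent.H202.Path

variable {α : Type*}

/-- the block of length `n` at the place `k` -/
def blk (s : ℕ → α) (n k : ℕ) : Fin n → α := fun i => s (k + i)

/-- the number of blocks of length `n` -/
noncomputable def cx (s : ℕ → α) (n : ℕ) : ℕ∞ := (Set.range (blk s n)).encard

lemma blk_image (s : ℕ → α) (n : ℕ) :
    (fun f : Fin (n + 1) → α => fun i : Fin n => f i.castSucc) '' Set.range (blk s (n + 1)) =
      Set.range (blk s n) := by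
  ext f
  constructor
  · rintro ⟨_, ⟨k, rfl⟩, rfl⟩
    exact ⟨k, rfl⟩
  · rintro ⟨k, rfl⟩
    exact ⟨_, ⟨k, rfl⟩, rfl⟩

lemma cx_mono (s : ℕ → α) (n : ℕ) : cx s n ≤ cx s (n + 1) := by
  unfold cx
  rw [← blk_image]
  exact Set.encard_image_le _ _

lemma cx_zero (s : ℕ → α) : 1 ≤ cx s 0 := by
  unfold cx
  rw [Set.one_le_encard_iff_nonempty]
  exact ⟨_, ⟨0, rfl⟩⟩

/-- **Morse–Hedlund.** -/
theorem morse_hedlund (s : ℕ → α) (N : ℕ) (hN : cx s N ≤ N) :
    ∃ n₀ P : ℕ, 0 < P ∧ ∀ k, n₀ ≤ k → s (k + P) = s k := by
  classical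
  -- a length at which the number of blocks does not grow
  obtain ⟨n, hn, hfin⟩ : ∃ n, cx s (n + 1) ≤ cx s n ∧ cx s (n + 1) ≠ ⊤ := by
    by_contra hcon
    push Not at hcon
    have hmono : ∀ a b, a ≤ b → cx s a ≤ cx s b := fun a b hab => by
      induction b, hab using Nat.le_induction with
      | base => exact le_rfl
      | succ b _ ih => exact ih.trans (cx_mono s b)
    have h1 : ∀ m, m ≤ N → ((m + 1 : ℕ) : ℕ∞) ≤ cx s m := by
      intro m
      induction m with
      | zero => intro _; simpa using cx_zero s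
      | succ m ih =>
        intro hm
        have h2 := ih (by omega)
        have h3 : cx s (m + 1) ≠ ⊤ := by
          intro h4
          have h5 := hmono (m + 1) N hm
          rw [h4] at h5
          exact absurd (h5.trans hN) (by simp)
        have h4 : cx s m < cx s (m + 1) := by
          by_contra h5
          exact h3 (hcon m (not_lt.1 h5))
        have h5 : ((m + 1 : ℕ) : ℕ∞) < cx s (m + 1) := h2.trans_lt h4
        have h6 := Order.add_one_le_of_lt h5
        exact_mod_cast h6
    have h2 := (h1 N le_rfl).trans hN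
    have h3 : N + 1 ≤ N := by exact_mod_cast h2
    omega
  have hfin' : (Set.range (blk s (n + 1))).Finite := Set.encard_ne_top_iff.1 hfin
  set r : (Fin (n + 1) → α) → (Fin n → α) := fun f i => f i.castSucc with hr
  have hinj : Set.InjOn r (Set.range (blk s (n + 1))) := by
    refine hfin'.injOn_of_encard_image_eq ?_
    rw [blk_image]
    exact le_antisymm (cx_mono s n) hn
  have hdet : ∀ k l, blk s n k = blk s n l → blk s (n + 1) k = blk s (n + 1) l := by
    intro k l hkl
    exact hinj ⟨k, rfl⟩ ⟨l, rfl⟩ hkl
  have hstep : ∀ k l, blk s n k = blk s n l → s (k + n) = s (l + n) ∧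
      blk s n (k + 1) = blk s n (l + 1) := by
    intro k l hkl
    have h1 := hdet k l hkl
    refine ⟨congrFun h1 (Fin.last n), ?_⟩
    funext i
    have h2 := congrFun h1 i.succ
    simp only [blk, Fin.val_succ] at h2 ⊢
    rw [show k + 1 + (i : ℕ) = k + (i + 1) by ring, show l + 1 + (i : ℕ) = l + (i + 1) by ring]
    exact h2
  -- two equal blocks
  have hfinn : (Set.range (blk s n)).Finite := by
    rw [← blk_image]
    exact hfin'.image _
  have : Finite (Set.range (blk s n)) := hfinn
  obtain ⟨i, j, hij, hblk⟩ := Finite.exists_ne_map_eq_of_infinite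
    (fun k : ℕ => (⟨blk s n k, ⟨k, rfl⟩⟩ : Set.range (blk s n)))
  have hblk' : blk s n i = blk s n j := congrArg Subtype.val hblk
  have key : ∀ i j : ℕ, i < j → blk s n i = blk s n j →
      ∃ n₀ P : ℕ, 0 < P ∧ ∀ k, n₀ ≤ k → s (k + P) = s k := by
    intro i j hij hblk
    have h1 : ∀ m, blk s n (i + m) = blk s n (j + m) := by
      intro m
      induction m with
      | zero => exact hblk
      | succ m ih => exact (hstep _ _ ih).2
    refine ⟨i + n, j - i, by omega, fun k hk => ?_⟩
    have h2 := (hstep _ _ (h1 (k - i - n))).1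
    rw [show i + (k - i - n) + n = k by omega, show j + (k - i - n) + n = k + (j - i) by omega]
      at h2
    exact h2.symm
  rcases lt_or_gt_of_ne hij with h | h
  · exact key i j h hblk'
  · exact key j i h hblk'.symm

/-- conversely -/
theorem cx_of_periodic (s : ℕ → α) {n₀ P : ℕ} (hP : 0 < P)
    (h : ∀ k, n₀ ≤ k → s (k + P) = s k) : ∃ N : ℕ, 0 < N ∧ cx s N ≤ N := by
  classical
  refine ⟨n₀ + P, by omega, ?_⟩
  have hsub : Set.range (blk s (n₀ + P)) ⊆
      ((Finset.range (n₀ + P)).image (blk s (n₀ + P)) : Set (Fin (n₀ + P) → α)) := by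
    rintro _ ⟨k, rfl⟩
    induction k using Nat.strong_induction_on with
    | _ k ih =>
      by_cases hk : k < n₀ + P
      · simp only [Finset.coe_image, Finset.coe_range]
        exact ⟨k, hk, rfl⟩
      · have h1 : blk s (n₀ + P) k = blk s (n₀ + P) (k - P) := by
          funext i
          simp only [blk]
          have := h (k - P + i) (by omega)
          rw [show k - P + (i : ℕ) + P = k + i by omega] at this
          exact this
        rw [h1]
        exact ih (k - P) (by omega)
  have h1 := Set.encard_le_encard hsub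
  refine h1.trans ?_
  rw [Set.encard_coe_eq_coe_finsetCard]
  have h2 : ((Finset.range (n₀ + P)).image (blk s (n₀ + P))).card ≤ n₀ + P := by
    refine Finset.card_image_le.trans ?_
    rw [Finset.card_range]
  exact_mod_cast h2

end Pool.Agent.H202.Path
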