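import Mathlib
import Pool.Agent.H202.Morse
import Pool.Graph.R_seed8.Y327.Root
import Pool.Graph.R_seed8.Y327.AlgRow
import Pool.Graph.R_seed8.TH314.CSD.Scales

/-! # Expansions along a path of the diagonal group -/

open Filter Topology Matrix

namespace Pool.Agent.H202.Path

open H715R2 Y327

variable {d : ℕ}

/-- the points of a path expansion -/
noncomputable def pt (g : Matrix (Fin d) (Fin d) ℝ) (b : ℕ → Fin d → ℝ)
    (W : ℕ → Matrix (Fin d) (Fin d) ℤ) : ℕ → Matrix (Fin d) (Fin d) ℝ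
  | 0 => g
  | n + 1 => diagonal (b n) * pt g b W n * zR (W n)

/-- product of the steps `n, …, n + m - 1` of the path -/
noncomputable def bp (b : ℕ → Fin d → ℝ) (n m : ℕ) (i : Fin d) : ℝ :=
  ∏ k ∈ Finset.range m, b (n + k) i

/-- product of the transition matrices `n, …, n + m - 1` -/
def Wp (W : ℕ → Matrix (Fin d) (Fin d) ℤ) (n : ℕ) : ℕ → Matrix (Fin d) (Fin d) ℤ
  | 0 => 1
  | m + 1 => Wp W n m * W (n + m)

lemma bp_pos {b : ℕ → Fin d → ℝ} (hb : ∀ n i, 0 < b n i) (n m : ℕ) (i : Fin d) :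
    0 < bp b n m i := Finset.prod_pos fun _ _ => hb _ _

lemma bp_prod {b : ℕ → Fin d → ℝ} (hb1 : ∀ n, ∏ i, b n i = 1) (n m : ℕ) :
    ∏ i, bp b n m i = 1 := by
  unfold bp
  rw [Finset.prod_comm]
  exact Finset.prod_eq_one fun k _ => hb1 _

lemma Wp_det {W : ℕ → Matrix (Fin d) (Fin d) ℤ} (hW : ∀ n, IsUnit (W n).det) (n m : ℕ) :
    IsUnit (Wp W n m).det := by
  induction m with
  | zero => rw [Wp, det_one]; exact isUnit_one
  | succ m ih => rw [Wp, det_mul]; exact ih.mul (hW _)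

lemma pt_add (g : Matrix (Fin d) (Fin d) ℝ) (b : ℕ → Fin d → ℝ)
    (W : ℕ → Matrix (Fin d) (Fin d) ℤ) (n m : ℕ) :
    pt g b W (n + m) = diagonal (bp b n m) * pt g b W n * zR (Wp W n m) := by
  induction m with
  | zero =>
    have h1 : bp b n 0 = fun _ => (1 : ℝ) := by
      funext i
      simp [bp]
    rw [h1, diagonal_one, Wp, zR_one, Matrix.one_mul, Matrix.mul_one, add_zero]
  | succ m ih =>
    rw [← add_assoc, pt, ih, Wp, zR_mul]
    have h1 : bp b n (m + 1) = fun i => b (n + m) i * bp b n m i := by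
      funext i
      rw [bp, Finset.prod_range_succ, mul_comm]
      rfl
    rw [h1, ← diagonal_mul_diagonal]
    simp only [Matrix.mul_assoc]

lemma pt_eq (g : Matrix (Fin d) (Fin d) ℝ) (b : ℕ → Fin d → ℝ)
    (W : ℕ → Matrix (Fin d) (Fin d) ℤ) (n : ℕ) :
    pt g b W n = diagonal (bp b 0 n) * g * zR (Wp W 0 n) := by
  have h1 := pt_add g b W 0 n
  rw [zero_add] at h1
  exact h1

lemma pt_mem {g : Matrix (Fin d) (Fin d) ℝ} {b : ℕ → Fin d → ℝ}
    {W : ℕ → Matrix (Fin d) (Fin d) ℤ} (hb : ∀ n i, 0 < b n i) (hb1 : ∀ n, ∏ i, b n i = 1)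
    (hW : ∀ n, IsUnit (W n).det) (n : ℕ) : pt g b W n ∈ Orb g :=
  ⟨bp b 0 n, Wp W 0 n, bp_pos hb 0 n, bp_prod hb1 0 n, Wp_det hW 0 n, pt_eq g b W n⟩

/-- cyclic shifts do not change the product over a period -/
lemma bp_shift {b : ℕ → Fin d → ℝ} (hb : ∀ n i, 0 < b n i) {n₀ P : ℕ}
    (hper : ∀ k, n₀ ≤ k → b (k + P) = b k) {n : ℕ} (hn : n₀ ≤ n) (i : Fin d) :
    bp b n P i = bp b n₀ P i := by
  induction n, hn using Nat.le_induction with
  | base => rfl
  | succ n hn ih =>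
    rw [← ih]
    have h1 : bp b n (P + 1) i = bp b n P i * b (n + P) i := by
      rw [bp, Finset.prod_range_succ]
      rfl
    have h2 : bp b n (P + 1) i = b n i * bp b (n + 1) P i := by
      rw [bp, Finset.prod_range_succ', mul_comm, bp]
      congr 1
      refine Finset.prod_congr rfl fun k _ => ?_
      rw [show n + (k + 1) = n + 1 + k by ring]
    have h3 : b (n + P) i = b n i := by rw [hper n hn]
    have h4 := hb n i
    rw [h1, h3, mul_comm] at h2
    exact (mul_left_cancel₀ h4.ne' h2).symm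

lemma Wp_shift {W : ℕ → Matrix (Fin d) (Fin d) ℤ} {n₀ P : ℕ}
    (hper : ∀ k, n₀ ≤ k → W (k + P) = W k) (k m : ℕ) :
    Wp W (n₀ + k * P) m = Wp W n₀ m := by
  have h1 : ∀ k m, W (n₀ + k * P + m) = W (n₀ + m) := by
    intro k m
    induction k with
    | zero => rw [zero_mul, add_zero]
    | succ k ih =>
      rw [← ih, show n₀ + (k + 1) * P + m = (n₀ + k * P + m) + P by ring]
      exact hper _ (by nlinarith [Nat.zero_le (k * P)])
  induction m with
  | zero => rfl
  | succ m ih => rw [Wp, Wp, ih, h1]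

lemma bp_shift' {b : ℕ → Fin d → ℝ} (hb : ∀ n i, 0 < b n i) {n₀ P : ℕ}
    (hper : ∀ k, n₀ ≤ k → b (k + P) = b k) (k : ℕ) (i : Fin d) :
    bp b (n₀ + k * P) P i = bp b n₀ P i := bp_shift hb hper (by omega) i

/-- the points of an eventually periodic expansion -/
lemma pt_periodic {g : Matrix (Fin d) (Fin d) ℝ} {b : ℕ → Fin d → ℝ}
    {W : ℕ → Matrix (Fin d) (Fin d) ℤ} (hb : ∀ n i, 0 < b n i) {n₀ P : ℕ}
    (hper : ∀ k, n₀ ≤ k → b (k + P) = b k) (hperW : ∀ k, n₀ ≤ k → W (k + P) = W k) (k : ℕ) :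
    pt g b W (n₀ + k * P) =
      diagonal (fun i => bp b n₀ P i ^ k) * pt g b W n₀ * zR (Wp W n₀ P ^ k) := by
  induction k with
  | zero =>
    have h1 : (fun i => bp b n₀ P i ^ 0) = fun _ => (1 : ℝ) := by
      funext i
      rw [pow_zero]
    rw [h1, diagonal_one, pow_zero, zR_one, Matrix.one_mul, Matrix.mul_one, zero_mul, add_zero]
  | succ k ih =>
    rw [show n₀ + (k + 1) * P = n₀ + k * P + P by ring, pt_add, ih, Wp_shift hperW]
    have h1 : bp b (n₀ + k * P) P = bp b n₀ P := funext fun i => bp_shift' hb hper k i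
    have h2 : (fun i => bp b n₀ P i ^ (k + 1)) = fun i => bp b n₀ P i * bp b n₀ P i ^ k := by
      funext i
      rw [pow_succ']
    rw [h1, h2, pow_succ, zR_mul, ← diagonal_mul_diagonal]
    simp only [Matrix.mul_assoc]

/-- **Triangularity.** -/
theorem tri {h : Matrix (Fin d) (Fin d) ℝ} (hdet : h.det ≠ 0) {B : Fin d → ℝ}
    (hB : ∀ i, 0 < B i) (hB1 : ∏ i, B i = 1) {W : Matrix (Fin d) (Fin d) ℤ}
    (hW : IsUnit W.det) {R : ℝ}
    (hR : ∀ k : ℕ, ∀ i j, |(diagonal (fun i => B i ^ k) * h * zR (W ^ k)) i j| ≤ R) :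
    ∃ (T : Matrix (Fin d) (Fin d) ℝ) (C : ℕ → Matrix (Fin d) (Fin d) ℝ) (M : ℝ), 0 < M ∧
      T * h = h * zR W ∧ (∀ k, |(C k).det| = 1) ∧ (∀ k i j, |C k i j| ≤ M) ∧
      (∀ k i j, |(C k)⁻¹ i j| ≤ M) ∧ (∀ k, diagonal (fun i => B i ^ k) * T ^ k = C k) ∧
      ∀ i j, B j < B i → T i j = 0 := by
  classical
  have hu : IsUnit h.det := isUnit_iff_ne_zero.2 hdet
  set T := h * zR W * h⁻¹ with hT
  have hTh : T * h = h * zR W := by
    rw [hT, Matrix.mul_assoc, nonsing_inv_mul _ hu, Matrix.mul_one]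
  have hTk : ∀ k : ℕ, T ^ k * h = h * zR (W ^ k) := by
    intro k
    induction k with
    | zero => rw [pow_zero, pow_zero, zR_one, Matrix.one_mul, Matrix.mul_one]
    | succ k ih =>
      rw [pow_succ', Matrix.mul_assoc, ih, ← Matrix.mul_assoc, hTh, Matrix.mul_assoc, ← zR_mul,
        pow_succ']
  have hTdet : |T.det| = 1 := by
    have h1 : T.det * h.det = h.det * (W.det : ℝ) := by rw [← det_mul, hTh, det_mul, det_zR]
    have h2 : T.det = (W.det : ℝ) := mul_right_cancel₀ hdet (by rw [h1, mul_comm])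
    rw [h2]
    exact abs_det_of_isUnit hW
  set C : ℕ → Matrix (Fin d) (Fin d) ℝ := fun k => diagonal (fun i => B i ^ k) * T ^ k with hC
  have hCdet : ∀ k, |(C k).det| = 1 := by
    intro k
    rw [hC]
    simp only
    rw [det_mul, det_diagonal, Finset.prod_pow, hB1, one_pow, one_mul, det_pow, abs_pow, hTdet,
      one_pow]
  have hCeq : ∀ k, C k = (diagonal (fun i => B i ^ k) * h * zR (W ^ k)) * h⁻¹ := by
    intro k
    rw [hC]
    simp only
    rw [Matrix.mul_assoc (diagonal _) h, ← hTk, ← Matrix.mul_assoc, Matrix.mul_assoc _ h,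
      mul_nonsing_inv _ hu, Matrix.mul_one]
  -- bounds
  set H : ℝ := ∑ i, ∑ j, |h⁻¹ i j| with hH
  have hHij : ∀ i j, |h⁻¹ i j| ≤ H := by
    intro i j
    refine le_trans ?_ (Finset.single_le_sum (f := fun i => ∑ j, |h⁻¹ i j|)
      (fun _ _ => Finset.sum_nonneg fun _ _ => abs_nonneg _) (Finset.mem_univ i))
    exact Finset.single_le_sum (f := fun j => |h⁻¹ i j|) (fun _ _ => abs_nonneg _)
      (Finset.mem_univ j)
  have hH0 : 0 ≤ H := Finset.sum_nonneg fun _ _ => Finset.sum_nonneg fun _ _ => abs_nonneg _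
  have hCb : ∀ k i j, |C k i j| ≤ d * (|R| * H) := by
    intro k i j
    rw [hCeq, Matrix.mul_apply]
    have h1 : |∑ l, (diagonal (fun i => B i ^ k) * h * zR (W ^ k)) i l * h⁻¹ l j| ≤
        ∑ _l : Fin d, |R| * H := by
      refine (Finset.abs_sum_le_sum_abs _ _).trans (Finset.sum_le_sum fun l _ => ?_)
      rw [abs_mul]
      exact mul_le_mul ((hR k i l).trans (le_abs_self R)) (hHij l j) (abs_nonneg _) (abs_nonneg _)
    rwa [Finset.sum_const, Finset.card_univ, Fintype.card_fin, nsmul_eq_mul] at h1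
  obtain ⟨M', hM'⟩ := (isCompact_box (d := d) (d * (|R| * H))).exists_bound_of_continuousOn
    (f := fun X : Matrix (Fin d) (Fin d) ℝ => ∑ i, ∑ j, |X.adjugate i j|) (by
      refine Continuous.continuousOn ?_
      refine continuous_finsetSum _ fun i _ => continuous_finsetSum _ fun j _ => ?_
      exact continuous_abs.comp
        ((continuous_apply_apply i j).comp (Continuous.matrix_adjugate continuous_id)))
  have hCinv : ∀ k i j, |(C k)⁻¹ i j| ≤ M' := by
    intro k i j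
    have h1 := hM' (C k) (hCb k)
    rw [Real.norm_eq_abs] at h1
    have h2 : |(C k)⁻¹ i j| = |(C k).adjugate i j| := by
      rw [Matrix.inv_def, Ring.inverse_eq_inv', Matrix.smul_apply, smul_eq_mul, abs_mul, abs_inv,
        hCdet, inv_one, one_mul]
    rw [h2]
    refine le_trans ?_ ((le_abs_self _).trans h1)
    refine le_trans ?_ (Finset.single_le_sum (f := fun i => ∑ j, |(C k).adjugate i j|)
      (fun _ _ => Finset.sum_nonneg fun _ _ => abs_nonneg _) (Finset.mem_univ i))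
    exact Finset.single_le_sum (f := fun j => |(C k).adjugate i j|) (fun _ _ => abs_nonneg _)
      (Finset.mem_univ j)
  set M : ℝ := max 1 (max (d * (|R| * H)) M') with hM
  have hM0 : 0 < M := lt_of_lt_of_le one_pos (le_max_left _ _)
  have hM1 : ∀ k i j, |C k i j| ≤ M := fun k i j =>
    (hCb k i j).trans ((le_max_left _ _).trans (le_max_right _ _))
  have hM2 : ∀ k i j, |(C k)⁻¹ i j| ≤ M := fun k i j =>
    (hCinv k i j).trans ((le_max_right _ _).trans (le_max_right _ _))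
  refine ⟨T, C, M, hM0, hTh, hCdet, hM1, hM2, fun k => rfl, fun i j hij => ?_⟩
  -- `T = D⁻ᵏ⁻¹ C_{k+1} C_k⁻¹ Dᵏ`
  have hCu : ∀ k, IsUnit (C k).det := by
    intro k
    rw [isUnit_iff_ne_zero, ← abs_ne_zero, hCdet]
    exact one_ne_zero
  have hkey : ∀ k : ℕ, B i ^ (k + 1) * T i j = (C (k + 1) * (C k)⁻¹) i j * B j ^ k := by
    intro k
    have h1 : diagonal (fun i => B i ^ (k + 1)) * T =
        C (k + 1) * (C k)⁻¹ * diagonal (fun i => B i ^ k) := by
      have h2 : C (k + 1) = diagonal (fun i => B i ^ (k + 1)) * T * T ^ k := by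
        have h6 : C (k + 1) = diagonal (fun i => B i ^ (k + 1)) * T ^ (k + 1) := rfl
        rw [h6, pow_succ' T, ← Matrix.mul_assoc]
      have h3 : T ^ k * ((C k)⁻¹ * diagonal (fun i => B i ^ k)) = 1 := by
        have h4 : (C k)⁻¹ * diagonal (fun i => B i ^ k) * T ^ k = 1 := by
          rw [Matrix.mul_assoc]
          exact nonsing_inv_mul _ (hCu k)
        exact mul_eq_one_comm.1 h4
      rw [Matrix.mul_assoc, h2, Matrix.mul_assoc _ (T ^ k), h3, Matrix.mul_one]
    have h5 := congrFun (congrFun h1 i) j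
    rw [diagonal_mul, mul_diagonal] at h5
    exact h5
  have hbd : ∀ k : ℕ, |T i j| ≤ (d * (M * M)) * (B i)⁻¹ * (B j / B i) ^ k := by
    intro k
    have h1 : |(C (k + 1) * (C k)⁻¹) i j| ≤ d * (M * M) := by
      rw [Matrix.mul_apply]
      have h2 : |∑ l, C (k + 1) i l * (C k)⁻¹ l j| ≤ ∑ _l : Fin d, M * M := by
        refine (Finset.abs_sum_le_sum_abs _ _).trans (Finset.sum_le_sum fun l _ => ?_)
        rw [abs_mul]
        exact mul_le_mul (hM1 _ _ _) (hM2 _ _ _) (abs_nonneg _) hM0.le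
      rwa [Finset.sum_const, Finset.card_univ, Fintype.card_fin, nsmul_eq_mul] at h2
    have h3 := congrArg abs (hkey k)
    have h4 : 0 < B i ^ (k + 1) := pow_pos (hB i) _
    have h5 : 0 < B j ^ k := pow_pos (hB j) _
    rw [abs_mul, abs_mul, abs_of_pos h4, abs_of_pos h5] at h3
    have h6 : |T i j| = |(C (k + 1) * (C k)⁻¹) i j| * B j ^ k / B i ^ (k + 1) := by
      rw [eq_div_iff h4.ne', mul_comm]
      exact h3
    rw [h6, div_pow, pow_succ]
    have h7 : 0 < B i ^ k := pow_pos (hB i) _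
    have h8 := hB i
    calc |(C (k + 1) * (C k)⁻¹) i j| * B j ^ k / (B i ^ k * B i)
        ≤ (d * (M * M)) * B j ^ k / (B i ^ k * B i) := by gcongr
      _ = (d * (M * M)) * (B i)⁻¹ * (B j ^ k / B i ^ k) := by field_simp
  have hlim : Tendsto (fun k : ℕ => (d * (M * M)) * (B i)⁻¹ * (B j / B i) ^ k) atTop (𝓝 0) := by
    have h1 := (tendsto_pow_atTop_nhds_zero_of_lt_one (div_nonneg (hB j).le (hB i).le)
      ((div_lt_one (hB i)).2 hij)).const_mul ((d * (M * M)) * (B i)⁻¹)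
    rwa [mul_zero] at h1
  have h1 := ge_of_tendsto' hlim hbd
  exact abs_nonpos_iff.1 h1

end Pool.Agent.H202.Path
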