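import Mathlib
import Pool.Agent.H202.Path
import Pool.Graph.R_pool_sql_team_seeded_3997aac3.Q64.IF.Fin

/-! # Powers of a word in a path expansion -/

open Filter Topology Matrix

namespace Pool.Agent.H202.Path

open H715R2 Y327

variable {d : ℕ}

/-- the points of an expansion depend only on the steps used -/
lemma pt_congr {h : Matrix (Fin d) (Fin d) ℝ} {b b' : ℕ → Fin d → ℝ}
    {W W' : ℕ → Matrix (Fin d) (Fin d) ℤ} {n : ℕ} {m : ℕ}
    (hb : ∀ k, k < m → b (n + k) = b' k) (hW : ∀ k, k < m → W (n + k) = W' k) :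
    pt h b W (n + m) = pt (pt h b W n) b' W' m := by
  induction m with
  | zero => rfl
  | succ m ih =>
    rw [← add_assoc, pt, pt, ih (fun k hk => hb k (by omega)) (fun k hk => hW k (by omega)),
      hb m (by omega), hW m (by omega)]

/-- all powers of a word: a limit point with a periodic expansion -/
theorem exists_limit_word {g : Matrix (Fin d) (Fin d) ℝ} {b : ℕ → Fin d → ℝ}
    {W : ℕ → Matrix (Fin d) (Fin d) ℤ} (hb : ∀ n i, 0 < b n i) (hb1 : ∀ n, ∏ i, b n i = 1)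
    (hW : ∀ n, IsUnit (W n).det) {R : ℝ} (hR : ∀ n i j, |pt g b W n i j| ≤ R)
    {c : ℕ → Fin d → ℝ} {V : ℕ → Matrix (Fin d) (Fin d) ℤ} {P : ℕ}
    (hc : ∀ k, c (k + P) = c k) (hV : ∀ k, V (k + P) = V k) (hcpos : ∀ n i, 0 < c n i)
    (hpow : ∀ k : ℕ, ∃ n, ∀ m < k, b (n + m) = c m ∧ W (n + m) = V m) :
    ∃ h ∈ closure (Orb g), ∀ k : ℕ, ∀ i j,
      |(diagonal (fun i => bp c 0 P i ^ k) * h * zR (Wp V 0 P ^ k)) i j| ≤ R := by
  classical
  choose n hn using fun k => hpow (k * P)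
  obtain ⟨h, -, φ, hφ, hlim⟩ := (isCompact_box (d := d) R).tendsto_subseq
    (x := fun k => pt g b W (n k)) (fun k => hR (n k))
  refine ⟨h, mem_closure_of_tendsto hlim (Eventually.of_forall fun k => pt_mem hb hb1 hW _), ?_⟩
  intro k i j
  have h1 : ∀ l, k ≤ l → |(diagonal (fun i => bp c 0 P i ^ k) * pt g b W (n l) *
      zR (Wp V 0 P ^ k)) i j| ≤ R := by
    intro l hl
    have h2 : ∀ m, m < k * P → m < l * P := fun m hm => hm.trans_le (Nat.mul_le_mul_right P hl)
    have h3 := pt_congr (h := g) (b := b) (b' := c) (W := W) (W' := V) (n := n l) (m := k * P)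
      (fun m hm => (hn l m (h2 m hm)).1) (fun m hm => (hn l m (h2 m hm)).2)
    have h4 := pt_periodic (g := pt g b W (n l)) (b := c) (W := V) (n₀ := 0) (P := P) hcpos
      (fun m _ => hc m) (fun m _ => hV m) k
    rw [zero_add] at h4
    rw [h4] at h3
    have h5 := hR (n l + k * P) i j
    rw [h3] at h5
    exact h5
  have hcont : Continuous (fun h : Matrix (Fin d) (Fin d) ℝ =>
      |(diagonal (fun i => bp c 0 P i ^ k) * h * zR (Wp V 0 P ^ k)) i j|) :=
    continuous_abs.comp ((continuous_apply_apply i j).comp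
      ((continuous_const.matrix_mul continuous_id).matrix_mul continuous_const))
  refine le_of_tendsto ((hcont.tendsto h).comp hlim) ?_
  filter_upwards [eventually_ge_atTop k] with l hl
  exact h1 (φ l) (hl.trans (hφ.id_le l))

/-- rational zeros of a limit -/
lemma inf0_of_row {g h : Matrix (Fin d) (Fin d) ℝ} (hh : h ∈ closure (Orb g))
    (i : Fin d) {m : Fin d → ℤ} (hm : m ≠ 0) (h0 : (h *ᵥ iR m) i = 0) :
    Pool.Agent.Q64.IF.Inf0 g := by
  by_contra hcon
  obtain ⟨ν, hν, hnu⟩ := Pool.Agent.Q64.IF.exists_nu hcon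
  have h1 := hasNu_closure hnu hh m hm
  rw [FF_eq, Finset.prod_eq_zero (Finset.mem_univ i) h0, abs_zero] at h1
  exact absurd h1 (not_le.2 hν)

/-- **A word with a dominating row.** -/
theorem main_row (hd : 3 ≤ d) {g h : Matrix (Fin d) (Fin d) ℝ} (hg : g.det ≠ 0)
    (hh : h ∈ closure (Orb g)) {B : Fin d → ℝ} (hB : ∀ i, 0 < B i) (hB1 : ∏ i, B i = 1)
    {W : Matrix (Fin d) (Fin d) ℤ} (hW : IsUnit W.det) {R : ℝ}
    (hR : ∀ k : ℕ, ∀ i j, |(diagonal (fun i => B i ^ k) * h * zR (W ^ k)) i j| ≤ R)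
    {i₀ : Fin d} (hi₀ : ∀ j, j ≠ i₀ → B j < B i₀) :
    Pool.Agent.Q64.IF.Inf0 g ∨ PropInt g := by
  classical
  have hdet : h.det ≠ 0 := by
    rw [← abs_ne_zero, abs_det_closure hh, abs_ne_zero]
    exact hg
  have hu : IsUnit h.det := isUnit_iff_ne_zero.2 hdet
  have hd0 : 0 < d := by omega
  by_cases hp : ∀ m : Fin d → ℤ, h i₀ ⬝ᵥ (fun j => (m j : ℝ)) = 0 → m = 0
  swap
  · push Not at hp
    obtain ⟨m, hm1, hm2⟩ := hp
    exact Or.inl (inf0_of_row hh i₀ hm2 hm1)
  obtain ⟨T, C, M, hM0, hTh, hCdet, hCM, hCM', hCT, htri⟩ := tri hdet hB hB1 hW hR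
  have hCu : ∀ k, IsUnit (C k).det := by
    intro k
    rw [isUnit_iff_ne_zero, ← abs_ne_zero, hCdet]
    exact one_ne_zero
  -- the row is an eigenvector
  have hTrow : ∀ j, j ≠ i₀ → T i₀ j = 0 := fun j hj => htri i₀ j (hi₀ j hj)
  have hrow : h i₀ ᵥ* zR W = T i₀ i₀ • h i₀ := by
    have h1 : (T * h) i₀ = T i₀ i₀ • h i₀ := by
      funext l
      rw [Matrix.mul_apply, Finset.sum_eq_single i₀]
      · rfl
      · intro j _ hj
        rw [hTrow j hj, zero_mul]
      · intro h0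
        exact absurd (Finset.mem_univ i₀) h0
    rw [← h1, hTh]
    rfl
  have hne : h i₀ ≠ 0 := by
    intro h0
    refine hdet (Matrix.det_eq_zero_of_row_eq_zero i₀ fun j => ?_)
    rw [h0]
    rfl
  have hTk : ∀ k : ℕ, (T ^ k) i₀ i₀ = T i₀ i₀ ^ k ∧ ∀ j, j ≠ i₀ → (T ^ k) i₀ j = 0 := by
    intro k
    induction k with
    | zero =>
      refine ⟨by simp, fun j hj => ?_⟩
      rw [pow_zero, Matrix.one_apply_ne hj.symm]
    | succ k ih =>
      have h1 : ∀ j, (T ^ (k + 1)) i₀ j = T i₀ i₀ ^ k * T i₀ j := by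
        intro j
        rw [pow_succ, Matrix.mul_apply, Finset.sum_eq_single i₀, ih.1]
        · intro l _ hl
          rw [ih.2 l hl, zero_mul]
        · intro h0
          exact absurd (Finset.mem_univ i₀) h0
      exact ⟨by rw [h1, pow_succ], fun j hj => by rw [h1, hTrow j hj, mul_zero]⟩
  have hχ : ∀ k : ℕ, |T i₀ i₀| ^ k * B i₀ ^ k ≤ M := by
    intro k
    have h1 := hCM k i₀ i₀
    rw [← hCT, diagonal_mul, (hTk k).1, abs_mul, abs_pow, abs_pow, abs_of_pos (hB i₀)] at h1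
    linarith
  -- the joint eigenspace is a line
  have hline : ∀ p' : Fin d → ℝ, (∀ σ ∈ ({W} : Set (Matrix (Fin d) (Fin d) ℤ)), ∀ χ : ℝ,
      h i₀ ᵥ* σ.map (Int.cast : ℤ → ℝ) = χ • h i₀ →
      p' ᵥ* σ.map (Int.cast : ℤ → ℝ) = χ • p') → ∃ c : ℝ, p' = c • h i₀ := by
    intro p' hp'
    have h1 : p' ᵥ* zR W = T i₀ i₀ • p' := hp' W rfl (T i₀ i₀) hrow
    set v : Fin d → ℝ := p' ᵥ* h⁻¹ with hv
    have hvh : v ᵥ* h = p' := by
      rw [hv, Matrix.vecMul_vecMul, nonsing_inv_mul _ hu, Matrix.vecMul_one]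
    have hvT : v ᵥ* T = T i₀ i₀ • v := by
      have h2 : (v ᵥ* T) ᵥ* h = (T i₀ i₀ • v) ᵥ* h := by
        rw [Matrix.vecMul_vecMul, hTh, ← Matrix.vecMul_vecMul, hvh, h1, Matrix.smul_vecMul, hvh]
      have h3 := congrArg (fun w : Fin d → ℝ => w ᵥ* h⁻¹) h2
      simp only [Matrix.vecMul_vecMul] at h3
      rw [Matrix.mul_nonsing_inv _ hu, Matrix.vecMul_one, Matrix.mul_assoc,
        Matrix.mul_nonsing_inv _ hu, Matrix.mul_one] at h3
      exact h3
    have hvTk : ∀ k : ℕ, v ᵥ* T ^ k = (T i₀ i₀) ^ k • v := by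
      intro k
      induction k with
      | zero => rw [pow_zero, pow_zero, Matrix.vecMul_one, one_smul]
      | succ k ih =>
        rw [pow_succ, ← Matrix.vecMul_vecMul, ih, Matrix.smul_vecMul, hvT, smul_smul, pow_succ]
    have hvl : ∀ l, l ≠ i₀ → v l = 0 := by
      intro l hl
      set S : ℝ := ∑ j, |v j| with hS
      have hbd : ∀ k : ℕ, |v l| ≤ S * M * M * (B l / B i₀) ^ k := by
        intro k
        -- `v B^{-k} = χ^k v C_k⁻¹`
        have h2 : (v ᵥ* diagonal (fun i => (B i ^ k)⁻¹)) ᵥ* C k = (T i₀ i₀) ^ k • v := by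
          rw [← hvTk, ← hCT, Matrix.vecMul_vecMul, ← Matrix.mul_assoc, diagonal_mul_diagonal]
          have h3 : (fun i => (B i ^ k)⁻¹ * B i ^ k) = fun _ => (1 : ℝ) :=
            funext fun i => inv_mul_cancel₀ (pow_pos (hB i) k).ne'
          rw [h3, diagonal_one, Matrix.one_mul]
        have h3 : v ᵥ* diagonal (fun i => (B i ^ k)⁻¹) = (T i₀ i₀) ^ k • (v ᵥ* (C k)⁻¹) := by
          rw [← Matrix.smul_vecMul, ← h2]
          generalize v ᵥ* diagonal (fun i => (B i ^ k)⁻¹) = u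
          rw [Matrix.vecMul_vecMul, mul_nonsing_inv _ (hCu k), Matrix.vecMul_one]
        have h4 := congrFun h3 l
        rw [Matrix.vecMul_diagonal, Pi.smul_apply, smul_eq_mul] at h4
        have h5 : |(v ᵥ* (C k)⁻¹) l| ≤ S * M := by
          simp only [Matrix.vecMul, dotProduct]
          refine (Finset.abs_sum_le_sum_abs _ _).trans ?_
          rw [hS, Finset.sum_mul]
          refine Finset.sum_le_sum fun j _ => ?_
          rw [abs_mul]
          exact mul_le_mul_of_nonneg_left (hCM' k j l) (abs_nonneg _)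
        have hBl : 0 < B l ^ k := pow_pos (hB l) k
        have hBi : 0 < B i₀ ^ k := pow_pos (hB i₀) k
        have h6 : |v l| = B l ^ k * (|T i₀ i₀| ^ k * |(v ᵥ* (C k)⁻¹) l|) := by
          have h7 : v l = B l ^ k * ((T i₀ i₀) ^ k * (v ᵥ* (C k)⁻¹) l) := by
            rw [← h4, mul_comm (v l), ← mul_assoc, mul_inv_cancel₀ hBl.ne', one_mul]
          have h9 : |v l| = |B l ^ k * ((T i₀ i₀) ^ k * (v ᵥ* (C k)⁻¹) l)| := congrArg abs h7
          rw [h9, abs_mul, abs_mul, abs_of_pos hBl, abs_pow]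
        have h8 : |T i₀ i₀| ^ k ≤ M / B i₀ ^ k := by
          rw [le_div_iff₀ hBi]
          exact hχ k
        have hS0 : 0 ≤ S := Finset.sum_nonneg fun _ _ => abs_nonneg _
        rw [h6]
        calc B l ^ k * (|T i₀ i₀| ^ k * |(v ᵥ* (C k)⁻¹) l|)
            ≤ B l ^ k * (M / B i₀ ^ k * (S * M)) := by gcongr
          _ = S * M * M * (B l / B i₀) ^ k := by rw [div_pow]; field_simp
      have hlim : Tendsto (fun k : ℕ => S * M * M * (B l / B i₀) ^ k) atTop (𝓝 0) := by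
        have h1 := (tendsto_pow_atTop_nhds_zero_of_lt_one (div_nonneg (hB l).le (hB i₀).le)
          ((div_lt_one (hB i₀)).2 (hi₀ l hl))).const_mul (S * M * M)
        rwa [mul_zero] at h1
      exact abs_nonpos_iff.1 (ge_of_tendsto' hlim hbd)
    refine ⟨v i₀, ?_⟩
    rw [← hvh]
    funext j
    simp only [Matrix.vecMul, dotProduct, Pi.smul_apply, smul_eq_mul]
    rw [Finset.sum_eq_single i₀]
    · intro l _ hl
      rw [hvl l hl, zero_mul]
    · intro h0
      exact absurd (Finset.mem_univ i₀) h0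
  obtain ⟨K, hfin, hK, s, hs, hmem⟩ := alg_of_line hd0 (h i₀) hp {W} hline
  rcases limit_alg hd hg hh i₀ s hs K hK hmem with ⟨x, hx, hx0⟩ | hint | hdense
  · exact Or.inl (inf0_of_row hh i₀ hx hx0)
  · exact Or.inr hint
  · left
    intro ε hε
    obtain ⟨x, hx, hx2⟩ := dense_ne hd0 hdense 0 ε hε
    rw [sub_zero] at hx2
    exact ⟨x, hx, hx2⟩

/-- **Prime dimension.** -/
theorem main_prime (hd : 3 ≤ d) (hp : d.Prime) {g h : Matrix (Fin d) (Fin d) ℝ} (hg : g.det ≠ 0)
    (hh : h ∈ closure (Orb g)) {B : Fin d → ℝ} (hB : ∀ i, 0 < B i) (hB1 : ∏ i, B i = 1)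
    {W : Matrix (Fin d) (Fin d) ℤ} (hW : IsUnit W.det) {R : ℝ}
    (hR : ∀ k : ℕ, ∀ i j, |(diagonal (fun i => B i ^ k) * h * zR (W ^ k)) i j| ≤ R)
    (hB' : ∃ i, B i ≠ 1) : Pool.Agent.Q64.IF.Inf0 g ∨ PropInt g := by
  classical
  have hdet : h.det ≠ 0 := by
    rw [← abs_ne_zero, abs_det_closure hh, abs_ne_zero]
    exact hg
  have hne : Nonempty (Fin d) := ⟨⟨0, by omega⟩⟩
  obtain ⟨T, C, M, hM0, hTh, hCdet, hCM, hCM', hCT, htri⟩ := tri hdet hB hB1 hW hR
  obtain ⟨i₁, -, hmax⟩ := Finset.exists_max_image Finset.univ B Finset.univ_nonempty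
  have hmax' : ∀ j, B j ≤ B i₁ := fun j => hmax j (Finset.mem_univ j)
  have hgt : 1 < B i₁ := by
    by_contra hcon
    rw [not_lt] at hcon
    obtain ⟨i, hi⟩ := hB'
    have h1 : B i < 1 := lt_of_le_of_ne ((hmax' i).trans hcon) hi
    have h2 : ∏ j, B j < 1 := by
      rw [← Finset.mul_prod_erase Finset.univ _ (Finset.mem_univ i)]
      have h3 : ∏ j ∈ Finset.univ.erase i, B j ≤ 1 :=
        Finset.prod_le_one (fun j _ => (hB j).le) fun j _ => (hmax' j).trans hcon
      have h4 : 0 < ∏ j ∈ Finset.univ.erase i, B j := Finset.prod_pos fun j _ => hB j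
      nlinarith [hB i]
    exact absurd hB1 h2.ne
  set I : Finset (Fin d) := Finset.univ.filter fun i => B i = B i₁ with hI
  have hI1 : i₁ ∈ I := by rw [hI, Finset.mem_filter]; exact ⟨Finset.mem_univ _, rfl⟩
  have hI2 : I ≠ Finset.univ := by
    intro h0
    have h1 : ∀ j, B j = B i₁ := by
      intro j
      have : j ∈ I := by rw [h0]; exact Finset.mem_univ j
      rw [hI, Finset.mem_filter] at this
      exact this.2
    have h2 : ∏ j, B j = B i₁ ^ d := by
      rw [Finset.prod_congr rfl fun j _ => h1 j, Finset.prod_const, Finset.card_univ,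
        Fintype.card_fin]
    rw [hB1] at h2
    have h3 := one_lt_pow₀ hgt (show d ≠ 0 by omega)
    linarith
  have hco : Nat.Coprime I.card d := by
    have h1 : I.card < d := by
      have := Finset.card_lt_univ_of_notMem
        (s := I) (x := (not_forall.1 (fun h0 => hI2 (Finset.eq_univ_iff_forall.2 h0))).choose)
        (not_forall.1 (fun h0 => hI2 (Finset.eq_univ_iff_forall.2 h0))).choose_spec
      rwa [Fintype.card_fin] at this
    have h2 : 0 < I.card := Finset.card_pos.2 ⟨i₁, hI1⟩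
    rw [Nat.coprime_comm]
    exact (Nat.Prime.coprime_iff_not_dvd hp).2 fun h3 => absurd (Nat.le_of_dvd h2 h3) (by omega)
  set σ : Matrix (Fin d) (Fin d) ℚ := W.map (Int.cast : ℤ → ℚ) with hσ
  have hσR : Pool.Agent.Q64.IF.rQ d σ = zR W := by
    ext i j
    rw [Pool.Agent.Q64.IF.rQ_apply, hσ, Matrix.map_apply]
    simp [zR]
  have hnonscalar : ∀ c : ℚ, σ ≠ c • 1 := by
    intro c h0
    have h1 : zR W = (c : ℝ) • (1 : Matrix (Fin d) (Fin d) ℝ) := by
      rw [← hσR, h0]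
      ext i j
      rw [Pool.Agent.Q64.IF.rQ_apply, Matrix.smul_apply, Matrix.smul_apply, Matrix.one_apply,
        Matrix.one_apply]
      split_ifs <;> simp
    have h2 : T = (c : ℝ) • (1 : Matrix (Fin d) (Fin d) ℝ) := by
      have h3 : T * h = ((c : ℝ) • (1 : Matrix (Fin d) (Fin d) ℝ)) * h := by
        rw [hTh, h1, Matrix.mul_smul, Matrix.smul_mul, Matrix.mul_one, Matrix.one_mul]
      have h4 := congrArg (fun X => X * h⁻¹) h3
      simp only [Matrix.mul_assoc, mul_nonsing_inv _ (isUnit_iff_ne_zero.2 hdet),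
        Matrix.mul_one] at h4
      exact h4
    have h3 : |(c : ℝ)| = 1 := by
      have h4 := abs_det_of_isUnit hW
      rw [← det_zR, h1, det_smul, det_one, mul_one, Fintype.card_fin, abs_pow] at h4
      exact (pow_eq_one_iff_of_nonneg (abs_nonneg _) (by omega)).1 h4
    have h5 : ∀ k : ℕ, B i₁ ^ k ≤ M := by
      intro k
      have h6 := hCM k i₁ i₁
      rw [← hCT, diagonal_mul, h2, smul_pow, one_pow, Matrix.smul_apply, Matrix.one_apply_eq,
        smul_eq_mul, mul_one, abs_mul, abs_pow, abs_pow, h3, one_pow, mul_one,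
        abs_of_pos (hB i₁)] at h6
      exact h6
    obtain ⟨k, hk⟩ := pow_unbounded_of_one_lt M hgt
    exact absurd (h5 k) (not_le.2 hk)
  refine Pool.Agent.Q64.IF.main_coprime hd hg hh I ⟨i₁, hI1⟩ hI2 hco σ
    (Or.inr ⟨hp, hnonscalar⟩) ?_
  intro i hi
  rw [hσR]
  have h1 : h i ᵥ* zR W = ∑ j ∈ I, T i j • h j := by
    have h2 : (T * h) i = ∑ j, T i j • h j := by
      funext l
      rw [Matrix.mul_apply, Finset.sum_apply]
      rfl
    have h3 : h i ᵥ* zR W = (T * h) i := by rw [hTh]; rfl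
    rw [h3, h2]
    refine (Finset.sum_subset (Finset.subset_univ I) fun j _ hj => ?_).symm
    rw [hI, Finset.mem_filter] at hi hj
    have h4 : B j < B i := by
      rw [hi.2]
      exact lt_of_le_of_ne (hmax' j) fun h5 => hj ⟨Finset.mem_univ _, h5⟩
    rw [htri i j h4, zero_smul]
  rw [h1]
  exact Submodule.sum_mem _ fun j hj =>
    Submodule.smul_mem _ _ (Submodule.subset_span ⟨j, hj, rfl⟩)

end Pool.Agent.H202.Path
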