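import Mathlib
import Pool.Graph.R_seed8.Y327.Recur

/-! # An integral symmetry of an integral product of linear forms -/

open Filter Topology Matrix

namespace Pool.Agent.H202

open H715R2 Y327

variable {d : ℕ}

/-- a unit gives a diagonal symmetry with one large eigenvalue -/
theorem exists_unit_diag (hd : 3 ≤ d) {g : Matrix (Fin d) (Fin d) ℝ} (hg : g.det ≠ 0) {ν : ℝ}
    (hν : 0 < ν) (hnu : HasNu g ν) (hP : PropInt g) :
    ∃ (β : Fin d → ℝ) (γ : Matrix (Fin d) (Fin d) ℤ), IsUnit γ.det ∧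
      g * zR γ = diagonal β * g ∧ ∏ k, β k = 1 ∧ (∀ k, 0 < β k) ∧
      ∃ i, 1 < β i ∧ ∀ j, j ≠ i → β j < 1 := by
  classical
  obtain ⟨K, _, D, t, B, c, hbij, hreal, hBc, hBdet, hgB⟩ := dat_of_propInt hd hg hν hnu hP
  have hd0 : 0 < d := by omega
  set i₀ : Fin d := ⟨0, hd0⟩ with hi₀
  obtain ⟨u, hu⟩ := NumberField.Units.dirichletUnitTheorem.exists_unit K
    (NumberField.InfinitePlace.mk (t i₀))
  obtain ⟨γ, hγ, hγB, hγ1⟩ := unit_act D t hbij hreal B hBc hBdet u
  have hlg : ∀ j, j ≠ i₀ → lg D.N (t j) u < 0 := by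
    intro j hj
    have h1 : NumberField.InfinitePlace.mk (t j) ≠ NumberField.InfinitePlace.mk (t i₀) := by
      intro h0
      rw [NumberField.InfinitePlace.mk_eq_iff] at h0
      rcases h0 with h0 | h0
      · exact hj (hbij.1 h0)
      · rw [(NumberField.ComplexEmbedding.isReal_iff.1 (hreal (t j)))] at h0
        exact hj (hbij.1 h0)
    have h2 := hu _ h1
    rw [NumberField.InfinitePlace.apply] at h2
    unfold lg uu
    push_cast
    rw [map_pow, norm_pow, Real.log_pow]
    have h3 : (0 : ℝ) < D.N := by exact_mod_cast D.hN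
    exact mul_neg_of_pos_of_neg h3 h2
  set β : Fin d → ℝ := fun k => Real.exp (lg D.N (t k) u) with hβ
  have hβ1 : ∏ k, β k = 1 := hγ1
  have hβpos : ∀ k, 0 < β k := fun k => Real.exp_pos _
  have hβj : ∀ j, j ≠ i₀ → β j < 1 := fun j hj => by
    rw [hβ]
    simp only
    rw [Real.exp_lt_one_iff]
    exact hlg j hj
  have hβi : 1 < β i₀ := by
    have hβ1' := hβ1
    rw [← Finset.mul_prod_erase Finset.univ _ (Finset.mem_univ i₀)] at hβ1'
    have h1 : ∏ j ∈ Finset.univ.erase i₀, β j < 1 := by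
      have h2 : (⟨1, by omega⟩ : Fin d) ∈ Finset.univ.erase i₀ := by
        rw [Finset.mem_erase]
        refine ⟨?_, Finset.mem_univ _⟩
        intro h0
        rw [hi₀, Fin.mk.injEq] at h0
        omega
      rw [← Finset.mul_prod_erase _ _ h2]
      have h3 : ∏ j ∈ (Finset.univ.erase i₀).erase ⟨1, by omega⟩, β j ≤ 1 :=
        Finset.prod_le_one (fun j _ => (hβpos j).le) fun j hj =>
          (hβj j (Finset.ne_of_mem_erase (Finset.mem_of_mem_erase hj))).le
      have h4 : 0 < ∏ j ∈ (Finset.univ.erase i₀).erase ⟨1, by omega⟩, β j :=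
        Finset.prod_pos fun j _ => hβpos j
      have h5 := hβj ⟨1, by omega⟩ (Finset.ne_of_mem_erase h2)
      have h6 := hβpos ⟨1, by omega⟩
      nlinarith
    have h2 : 0 < ∏ j ∈ Finset.univ.erase i₀, β j := Finset.prod_pos fun j _ => hβpos j
    have h3 := hβpos i₀
    by_contra hcon
    rw [not_lt] at hcon
    nlinarith
  refine ⟨β, γ, hγ, ?_, hβ1, hβpos, i₀, hβi, hβj⟩
  have h2 : diagonal β * diagonal c = diagonal c * diagonal β := by
    rw [diagonal_mul_diagonal, diagonal_mul_diagonal]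
    congr 1
    funext k
    exact mul_comm _ _
  rw [hgB, Matrix.mul_assoc, hγB, ← Matrix.mul_assoc, ← Matrix.mul_assoc, h2]

end Pool.Agent.H202
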